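import Mathlib

/-!
Quaternionic structures, products, group extensions, elementary type (problem MP_d26ff6_al).
-/

namespace QS

/-- A quaternionic structure `(G, -1, q)` with values in `Q`; `neg` is the distinguished
element `-1` of `G`, `zero` the distinguished quaternion `0`. -/
structure QStruct where
  G : Type
  [grp : CommGroup G]
  Q : Type
  neg : G
  zero : Q
  q : G → G → Q
  exp_two : ∀ a : G, a * a = 1
  surj : ∀ β : Q, ∃ a b, q a b = β
  qs1 : ∀ a, q a (neg * a) = zero
  qs2 : ∀ a b, q a b = q b a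
  qs3 : ∀ a b c, q a b = q a c ↔ q a (b * c) = zero
  qs4 : ∀ a b c d, q a b = q c d → ∃ x, q a b = q a x ∧ q c d = q c x

attribute [instance] QStruct.grp

/-- Isomorphism of quaternionic structures. -/
def Iso (S T : QStruct) : Prop :=
  ∃ φ : S.G ≃* T.G, φ S.neg = T.neg ∧
    ∀ a b c d, S.q a b = S.q c d ↔ T.q (φ a) (φ b) = T.q (φ c) (φ d)

/-- The direct product. -/
def prod (S T : QStruct) : QStruct where
  G := S.G × T.G
  Q := S.Q × T.Q
  neg := (S.neg, T.neg)
  zero := (S.zero, T.zero)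
  q := fun a b => (S.q a.1 b.1, T.q a.2 b.2)
  exp_two := fun a => Prod.ext (S.exp_two a.1) (T.exp_two a.2)
  surj := by
    rintro ⟨β, γ⟩
    obtain ⟨a, b, h⟩ := S.surj β
    obtain ⟨c, d, h'⟩ := T.surj γ
    exact ⟨(a, c), (b, d), by simp [h, h']⟩
  qs1 := fun a => Prod.ext (S.qs1 a.1) (T.qs1 a.2)
  qs2 := fun a b => Prod.ext (S.qs2 a.1 b.1) (T.qs2 a.2 b.2)
  qs3 := by
    intro a b c
    simp only [Prod.mk.injEq, Prod.fst_mul, Prod.snd_mul]
    rw [S.qs3, T.qs3]
  qs4 := by
    intro a b c d h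
    simp only [Prod.mk.injEq] at h
    obtain ⟨x, h1, h2⟩ := S.qs4 _ _ _ _ h.1
    obtain ⟨y, h3, h4⟩ := T.qs4 _ _ _ _ h.2
    exact ⟨(x, y), Prod.ext h1 h3, Prod.ext h2 h4⟩

/-- The map `q_x` of the group extension, on `G × {1, x}`, where `{1, x}` is written as
`Multiplicative (ZMod 2)`: `q_x (a x^α, b x^β) = (q (a, b), (-1)^(αβ) a^β b^α)`. -/
def extMap (S : QStruct) (u v : S.G × Multiplicative (ZMod 2)) : S.Q × S.G :=
  (S.q u.1 v.1,
    S.neg ^ ((Multiplicative.toAdd u.2).val * (Multiplicative.toAdd v.2).val) *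
      u.1 ^ (Multiplicative.toAdd v.2).val * v.1 ^ (Multiplicative.toAdd u.2).val)

theorem QStruct.q_one (S : QStruct) (a : S.G) : S.q a 1 = S.zero := by
  have := (S.qs3 a 1 1).1 rfl
  rwa [mul_one] at this

theorem QStruct.q_zero_mul (S : QStruct) {a b c : S.G} (h : S.q a b = S.zero) :
    S.q a (b * c) = S.q a c := by
  rw [S.qs3, mul_assoc, S.exp_two, mul_one, h]

theorem QStruct.q_neg_mul (S : QStruct) (a b : S.G) : S.q a (S.neg * a * b) = S.q a b :=
  S.q_zero_mul (S.qs1 a)

/-- the two elements of `Multiplicative (ZMod 2)` -/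
theorem two_cases (t : Multiplicative (ZMod 2)) :
    t = 1 ∨ t = Multiplicative.ofAdd 1 := by
  revert t; decide

theorem extMap_one_one (S : QStruct) (a b : S.G) :
    extMap S (a, 1) (b, 1) = (S.q a b, 1) := by
  simp [extMap]

theorem extMap_one_x (S : QStruct) (a b : S.G) :
    extMap S (a, 1) (b, Multiplicative.ofAdd 1) = (S.q a b, a) := by
  simp [extMap, ZMod.val_one]

theorem extMap_x_one (S : QStruct) (a b : S.G) :
    extMap S (a, Multiplicative.ofAdd 1) (b, 1) = (S.q a b, b) := by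
  simp [extMap, ZMod.val_one]

theorem extMap_x_x (S : QStruct) (a b : S.G) :
    extMap S (a, Multiplicative.ofAdd 1) (b, Multiplicative.ofAdd 1) =
      (S.q a b, S.neg * a * b) := by
  simp [extMap, ZMod.val_one]

theorem eq_iff_mul (S : QStruct) (s t : S.G) : s = t ↔ s * t = 1 := by
  constructor
  · rintro rfl; exact S.exp_two s
  · intro h
    calc s = s * (t * t) := by rw [S.exp_two, mul_one]
      _ = t := by rw [← mul_assoc, h, one_mul]

theorem x_mul_x : (Multiplicative.ofAdd (1 : ZMod 2)) * Multiplicative.ofAdd (1 : ZMod 2) = 1 := by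
  decide

theorem extMap_snd_mul (S : QStruct) (u v w : S.G × Multiplicative (ZMod 2)) :
    (extMap S u (v * w)).2 = (extMap S u v).2 * (extMap S u w).2 := by
  obtain ⟨a, α⟩ := u
  obtain ⟨b, β⟩ := v
  obtain ⟨c, γ⟩ := w
  rcases two_cases α with rfl | rfl <;> rcases two_cases β with rfl | rfl <;>
    rcases two_cases γ with rfl | rfl <;>
    simp only [Prod.mk_mul_mk, mul_one, one_mul, x_mul_x, extMap_one_one, extMap_one_x,
      extMap_x_one, extMap_x_x]
  · exact (S.exp_two a).symm
  · ac_rfl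
  · ac_rfl
  · calc b * c = (S.neg * S.neg) * (a * a) * (b * c) := by
          rw [S.exp_two, S.exp_two, one_mul, one_mul]
      _ = S.neg * a * b * (S.neg * a * c) := by ac_rfl

theorem extMap_qs3 (S : QStruct) (u v w : S.G × Multiplicative (ZMod 2)) :
    extMap S u v = extMap S u w ↔ extMap S u (v * w) = (S.zero, 1) := by
  rw [Prod.ext_iff, Prod.ext_iff, extMap_snd_mul, ← eq_iff_mul]
  exact and_congr_left fun _ => S.qs3 _ _ _

/-- every value `q_x (a x, v)` is `q_x (a x, g)` with `g` the second component -/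
theorem extMap_x (S : QStruct) (a : S.G) (v : S.G × Multiplicative (ZMod 2)) :
    extMap S (a, Multiplicative.ofAdd 1) v =
      (S.q a (extMap S (a, Multiplicative.ofAdd 1) v).2,
        (extMap S (a, Multiplicative.ofAdd 1) v).2) := by
  obtain ⟨b, β⟩ := v
  rcases two_cases β with rfl | rfl
  · rw [extMap_x_one]
  · rw [extMap_x_x, S.q_neg_mul]

theorem extMap_comm (S : QStruct) (u v : S.G × Multiplicative (ZMod 2)) :
    extMap S u v = extMap S v u := by
  obtain ⟨a, α⟩ := u
  obtain ⟨b, β⟩ := v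
  rcases two_cases α with rfl | rfl <;> rcases two_cases β with rfl | rfl <;>
    simp only [extMap_one_one, extMap_one_x, extMap_x_one, extMap_x_x, S.qs2 a b]
  rw [show S.neg * a * b = S.neg * b * a by ac_rfl]

/-- mixed case of (QS4) for the extension -/
theorem extMap_mixed (S : QStruct) (a c : S.G) (v w : S.G × Multiplicative (ZMod 2))
    (h : extMap S (a, Multiplicative.ofAdd 1) v = extMap S (c, 1) w) :
    ∃ y, extMap S (a, Multiplicative.ofAdd 1) v = extMap S (a, Multiplicative.ofAdd 1) y ∧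
      extMap S (c, 1) w = extMap S (c, 1) y := by
  obtain ⟨d, δ⟩ := w
  rcases two_cases δ with rfl | rfl
  · rw [extMap_one_one] at h ⊢
    rw [extMap_x] at h ⊢
    rw [Prod.mk.injEq] at h
    have h2 := h.2
    rw [h2] at h ⊢
    refine ⟨(1, 1), ?_, ?_⟩
    · rw [extMap_x_one]
    · rw [extMap_one_one, ← h.1, S.q_one, S.q_one]
  · rw [extMap_one_x] at h ⊢
    rw [extMap_x] at h ⊢
    rw [Prod.mk.injEq] at h
    have h2 := h.2
    rw [h2] at h ⊢
    refine ⟨(S.neg * a * c, Multiplicative.ofAdd 1), ?_, ?_⟩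
    · rw [extMap_x_x, S.q_neg_mul, show S.neg * a * (S.neg * a * c) =
        (S.neg * S.neg) * (a * a) * c by ac_rfl, S.exp_two, S.exp_two, one_mul, one_mul]
    · rw [extMap_one_x, ← h.1, show S.neg * a * c = S.neg * c * a by ac_rfl, S.q_neg_mul,
        S.qs2 a c]

theorem extMap_qs4 (S : QStruct) (u v w z : S.G × Multiplicative (ZMod 2))
    (h : extMap S u v = extMap S w z) :
    ∃ y, extMap S u v = extMap S u y ∧ extMap S w z = extMap S w y := by
  obtain ⟨a, α⟩ := u
  obtain ⟨c, γ⟩ := w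
  rcases two_cases α with rfl | rfl <;> rcases two_cases γ with rfl | rfl
  · obtain ⟨b, β⟩ := v
    obtain ⟨d, δ⟩ := z
    rcases two_cases β with rfl | rfl <;> rcases two_cases δ with rfl | rfl <;>
      simp only [extMap_one_one, extMap_one_x, Prod.mk.injEq] at h ⊢
    · obtain ⟨y, h1, h2⟩ := S.qs4 _ _ _ _ h.1
      exact ⟨(y, 1), by rw [extMap_one_one, h1], by rw [extMap_one_one, h2]⟩
    · obtain ⟨h1, rfl⟩ := h
      refine ⟨(b, 1), by rw [extMap_one_one], ?_⟩
      rw [extMap_one_one, S.qs2 1 d, S.qs2 1 b, S.q_one, S.q_one]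
    · obtain ⟨h1, rfl⟩ := h
      refine ⟨(d, 1), ?_, by rw [extMap_one_one]⟩
      rw [extMap_one_one, S.qs2 1 d, S.qs2 1 b, S.q_one, S.q_one]
    · obtain ⟨h1, rfl⟩ := h
      exact ⟨(b, Multiplicative.ofAdd 1), by rw [extMap_one_x], by rw [extMap_one_x, h1]⟩
  · obtain ⟨y, h1, h2⟩ := extMap_mixed S c a z v h.symm
    exact ⟨y, h2, h1⟩
  · exact extMap_mixed S a c v z h
  · rw [extMap_x S a v, extMap_x S c z, Prod.mk.injEq] at h
    refine ⟨((extMap S (a, Multiplicative.ofAdd 1) v).2, 1), ?_, ?_⟩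
    · rw [extMap_x_one]; exact extMap_x S a v
    · rw [extMap_x_one, h.2]; exact extMap_x S c z

/-- The group extension `S[x]`; its quaternions are the values of `q_x`. -/
def ext (S : QStruct) : QStruct where
  G := S.G × Multiplicative (ZMod 2)
  Q := {p : S.Q × S.G // ∃ u v, extMap S u v = p}
  neg := (S.neg, 1)
  zero := ⟨(S.zero, 1), (1, 1), (1, 1), by rw [extMap_one_one, S.q_one]⟩
  q := fun u v => ⟨extMap S u v, u, v, rfl⟩
  exp_two := by
    rintro ⟨a, α⟩
    rcases two_cases α with rfl | rfl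
    · exact Prod.ext (S.exp_two a) (mul_one _)
    · exact Prod.ext (S.exp_two a) x_mul_x
  surj := by
    rintro ⟨p, u, v, h⟩
    exact ⟨u, v, Subtype.ext h⟩
  qs1 := by
    rintro ⟨a, α⟩
    apply Subtype.ext
    rcases two_cases α with rfl | rfl
    · simp only [Prod.mk_mul_mk, mul_one, extMap_one_one, S.qs1]
    · simp only [Prod.mk_mul_mk, one_mul, extMap_x_x, S.qs1]
      rw [S.exp_two]
  qs2 := fun u v => Subtype.ext (extMap_comm S u v)
  qs3 := by
    intro u v w
    rw [Subtype.mk.injEq, Subtype.mk.injEq]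
    exact extMap_qs3 S u v w
  qs4 := by
    intro u v w z h
    obtain ⟨y, h1, h2⟩ := extMap_qs4 S u v w z (congrArg Subtype.val h)
    exact ⟨y, Subtype.ext h1, Subtype.ext h2⟩

/-- Structures of elementary type. The base cases are `L_0`, `L_{1,0}`, `L_{1,1}`, `L_1` and the
structures of local type (`|G| ≥ 2^3`, nondegenerate, two quaternions); the class is closed under
direct products, group extensions and isomorphism. -/
inductive ElemType : QStruct → Prop
  | L0 (S : QStruct) (h : Nat.card S.G = 1) : ElemType S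
  | L10 (S : QStruct) (h : Nat.card S.G = 2) (h1 : S.neg = 1)
      (h2 : ∀ a b, S.q a b = S.zero) : ElemType S
  | L11 (S : QStruct) (h : Nat.card S.G = 2) (h1 : S.neg ≠ 1)
      (h2 : ∀ a b, S.q a b = S.zero) : ElemType S
  | L1 (S : QStruct) (h : Nat.card S.G = 2) (h1 : S.neg ≠ 1)
      (h2 : S.q S.neg S.neg ≠ S.zero) : ElemType S
  | loc (S : QStruct) (hf : Finite S.G) (h : 8 ≤ Nat.card S.G)
      (h1 : ∀ a, (∀ b, S.q a b = S.zero) → a = 1) (h2 : Nat.card S.Q = 2) : ElemType S
  | prod (S T : QStruct) (h1 : ElemType S) (h2 : ElemType T) : ElemType (prod S T)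
  | ext (S : QStruct) (h : ElemType S) : ElemType (ext S)
  | iso (S T : QStruct) (h1 : Iso S T) (h2 : ElemType S) : ElemType T

/-- `a` is a common slot of all quaternions: every quaternion is `q (a, b)` for some `b`. -/
def CommonSlot (S : QStruct) (a : S.G) : Prop := ∀ β : S.Q, ∃ b, S.q a b = β

/-- Direct products of `L_0`, `L_{1,0}`, `L_{1,1}`, `L_1`, local types, and group extensions
`D[x]` with `D` in the class and totally degenerate (`q ≡ 0`). -/
inductive SlotType : QStruct → Prop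
  | L0 (S : QStruct) (h : Nat.card S.G = 1) : SlotType S
  | L10 (S : QStruct) (h : Nat.card S.G = 2) (h1 : S.neg = 1)
      (h2 : ∀ a b, S.q a b = S.zero) : SlotType S
  | L11 (S : QStruct) (h : Nat.card S.G = 2) (h1 : S.neg ≠ 1)
      (h2 : ∀ a b, S.q a b = S.zero) : SlotType S
  | L1 (S : QStruct) (h : Nat.card S.G = 2) (h1 : S.neg ≠ 1)
      (h2 : S.q S.neg S.neg ≠ S.zero) : SlotType S
  | loc (S : QStruct) (hf : Finite S.G) (h : 8 ≤ Nat.card S.G)
      (h1 : ∀ a, (∀ b, S.q a b = S.zero) → a = 1) (h2 : Nat.card S.Q = 2) : SlotType S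
  | prod (S T : QStruct) (h1 : SlotType S) (h2 : SlotType T) : SlotType (QS.prod S T)
  | ext (D : QStruct) (h1 : ∀ a b, D.q a b = D.zero) (h2 : SlotType D) : SlotType (QS.ext D)
  | iso (S T : QStruct) (h1 : Iso S T) (h2 : SlotType S) : SlotType T

end QS
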