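import Pool.Agent.Lib_MP_d26ff6_al.Proof

namespace QS

open CommonSlot

section main

variable (S : QStruct)

/-- the additive group of `S.G` is an `F_2`-space -/
noncomputable instance modV : Module (ZMod 2) (Additive S.G) :=
  AddCommGroup.zmodModule (n := 2) (fun x => by
    rw [two_nsmul]; exact S.exp_two (Additive.toMul x))

theorem q_mul_zero {a b c : S.G} (hb : S.q a b = S.zero) (hc : S.q a c = S.zero) :
    S.q a (b * c) = S.zero := (S.qs3 a b c).1 (by rw [hb, hc])

/-- the annihilator of `a` -/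
noncomputable def annS (a : S.G) : Submodule (ZMod 2) (Additive S.G) where
  carrier := {v | S.q a (Additive.toMul v) = S.zero}
  add_mem' := by
    intro v w hv hw
    exact q_mul_zero S hv hw
  zero_mem' := S.q_one a
  smul_mem' := by
    intro c v hv
    rcases zm c with rfl | rfl
    · rw [zero_smul]; exact S.q_one a
    · rw [one_smul]; exact hv

variable {S}

theorem mk_eq_iff {a : S.G} (b c : S.G) :
    (Submodule.Quotient.mk (Additive.ofMul b) : Additive S.G ⧸ annS S a) =
      Submodule.Quotient.mk (Additive.ofMul c) ↔ S.q a b = S.q a c := by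
  rw [Submodule.Quotient.eq, ZModModule.sub_eq_add, S.qs3]
  rfl

/-- common values -/
theorem exists_common {a : S.G} (ha : CommonSlot S a) (x y : S.G) :
    ∃ v, S.q x y = S.q x v ∧ S.q x y = S.q a v := by
  obtain ⟨b, hb⟩ := ha (S.q x y)
  obtain ⟨v, h1, h2⟩ := S.qs4 x y a b hb.symm
  exact ⟨v, h1, by rw [← hb, h2]⟩

theorem q_add {a : S.G} (x y z v w : S.G)
    (h1 : S.q x y = S.q x v) (h2 : S.q x y = S.q a v) (h3 : S.q x z = S.q x w)
    (h4 : S.q x z = S.q a w) : S.q x (y * z) = S.q a (v * w) := by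
  have e1 := (S.qs3 x y v).1 h1
  have e2 := (S.qs3 x z w).1 h3
  have e3 : S.q x (y * z) = S.q x (v * w) := by
    rw [S.qs3]
    rw [show y * z * (v * w) = (y * v) * (z * w) by ac_rfl]
    exact q_mul_zero S e1 e2
  have f1 : S.q v (x * a) = S.zero := by
    rw [← S.qs3, S.qs2 v x, S.qs2 v a, ← h1, h2]
  have f2 : S.q w (x * a) = S.zero := by
    rw [← S.qs3, S.qs2 w x, S.qs2 w a, ← h3, h4]
  have f3 : S.q (v * w) (x * a) = S.zero := by
    rw [S.qs2]
    exact q_mul_zero S (by rw [S.qs2]; exact f1) (by rw [S.qs2]; exact f2)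
  rw [e3, S.qs2 x, S.qs2 a]
  exact (S.qs3 _ _ _).2 f3

/-- the value of the linear form -/
noncomputable def lval {a : S.G} (ha : CommonSlot S a) (x y : S.G) : Additive S.G ⧸ annS S a :=
  Submodule.Quotient.mk (Additive.ofMul (ha (S.q x y)).choose)

theorem lval_eq_iff {a : S.G} (ha : CommonSlot S a) (x y z w : S.G) :
    lval ha x y = lval ha z w ↔ S.q x y = S.q z w := by
  unfold lval
  rw [mk_eq_iff, (ha (S.q x y)).choose_spec, (ha (S.q z w)).choose_spec]

theorem lval_mk {a : S.G} (ha : CommonSlot S a) {x y v : S.G} (h : S.q x y = S.q a v) :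
    lval ha x y = Submodule.Quotient.mk (Additive.ofMul v) := by
  unfold lval
  rw [mk_eq_iff, (ha (S.q x y)).choose_spec, h]

theorem lval_comm {a : S.G} (ha : CommonSlot S a) (x y : S.G) : lval ha x y = lval ha y x := by
  rw [lval_eq_iff, S.qs2]

theorem lval_mul {a : S.G} (ha : CommonSlot S a) (x y z : S.G) :
    lval ha x (y * z) = lval ha x y + lval ha x z := by
  obtain ⟨v, h1, h2⟩ := exists_common ha x y
  obtain ⟨w, h3, h4⟩ := exists_common ha x z
  rw [lval_mk ha h2, lval_mk ha h4, lval_mk ha (q_add x y z v w h1 h2 h3 h4)]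
  rfl

theorem lval_one {a : S.G} (ha : CommonSlot S a) (x : S.G) : lval ha x 1 = 0 := by
  have h := lval_mul ha x 1 1
  rw [mul_one] at h
  exact left_eq_add.1 h

/-- the bilinear form -/
noncomputable def lin {a : S.G} (ha : CommonSlot S a) :
    Additive S.G →ₗ[ZMod 2] Additive S.G →ₗ[ZMod 2] (Additive S.G ⧸ annS S a) :=
  LinearMap.mk₂ (ZMod 2) (fun x y => lval ha (Additive.toMul x) (Additive.toMul y))
    (by
      intro x y z
      rw [toMul_add, lval_comm, lval_mul, lval_comm ha _ (Additive.toMul x),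
        lval_comm ha _ (Additive.toMul y)])
    (by
      intro c x y
      rcases zm c with rfl | rfl
      · rw [zero_smul, zero_smul, toMul_zero, lval_comm, lval_one]
      · rw [one_smul, one_smul])
    (by
      intro x y z
      rw [toMul_add, lval_mul])
    (by
      intro c x y
      rcases zm c with rfl | rfl
      · rw [zero_smul, zero_smul, toMul_zero, lval_one]
      · rw [one_smul, one_smul])

theorem lin_apply {a : S.G} (ha : CommonSlot S a) (x y : Additive S.G) :
    lin ha x y = lval ha (Additive.toMul x) (Additive.toMul y) := rfl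

theorem lin_linked {a : S.G} (ha : CommonSlot S a) :
    IsLinked (lin ha) (Additive.ofMul S.neg) := by
  refine ⟨?_, ?_, ?_⟩
  · intro x y
    rw [lin_apply, lin_apply, lval_comm]
  · intro x
    rw [lin_apply, lin_apply, lval_eq_iff, toMul_ofMul, S.qs3, mul_comm]
    exact S.qs1 _
  · intro x y z w h
    rw [lin_apply, lin_apply, lval_eq_iff] at h
    obtain ⟨t, h1, h2⟩ := S.qs4 _ _ _ _ h
    refine ⟨Additive.ofMul t, ?_, ?_⟩
    · rw [lin_apply, lin_apply, lval_eq_iff]; exact h1.symm
    · rw [lin_apply, lin_apply, lval_eq_iff, h]; exact h2.symm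

theorem lin_full {a : S.G} (ha : CommonSlot S a) : Full (lin ha) (Additive.ofMul a) := by
  intro β
  obtain ⟨b, rfl⟩ := Submodule.Quotient.mk_surjective _ β
  exact ⟨b, lval_mk ha rfl⟩

theorem slot_main [Finite S.G] {a : S.G} (ha : CommonSlot S a) : SlotType S := by
  have h1 : Finite (Additive S.G) := (inferInstance : Finite S.G)
  have h2 := good_all (Nat.card (Additive S.G) + 1) (Additive S.G) (Additive S.G ⧸ annS S a)
    (lin ha) (Additive.ofMul S.neg) (lin_linked ha) ⟨_, lin_full ha⟩ (Nat.lt_succ_self _)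
  refine SlotType.iso _ _ ?_ h2
  let φ : Multiplicative (Additive S.G) ≃* S.G :=
    { toFun := fun x => Additive.toMul (Multiplicative.toAdd x)
      invFun := fun x => Multiplicative.ofAdd (Additive.ofMul x)
      left_inv := fun _ => rfl
      right_inv := fun _ => rfl
      map_mul' := fun _ _ => rfl }
  refine ⟨φ, rfl, ?_⟩
  intro x y z w
  exact lval_eq_iff ha _ _ _ _

theorem SlotType.elem {S : QStruct} (h : SlotType S) : ElemType S := by
  induction h with
  | L0 S h => exact ElemType.L0 S h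
  | L10 S h h1 h2 => exact ElemType.L10 S h h1 h2
  | L11 S h h1 h2 => exact ElemType.L11 S h h1 h2
  | L1 S h h1 h2 => exact ElemType.L1 S h h1 h2
  | loc S hf h h1 h2 => exact ElemType.loc S hf h h1 h2
  | prod S T _ _ h1 h2 => exact ElemType.prod S T h1 h2
  | ext D _ _ h => exact ElemType.ext D h
  | iso S T h _ h2 => exact ElemType.iso S T h h2

theorem common_of_zero (S : QStruct) (h : ∀ a b, S.q a b = S.zero) : ∃ a, CommonSlot S a := by
  refine ⟨1, fun β => ⟨1, ?_⟩⟩
  obtain ⟨c, d, rfl⟩ := S.surj β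
  rw [h, h]

theorem SlotType.common {S : QStruct} (h : SlotType S) : ∃ a, CommonSlot S a := by
  induction h with
  | L0 S h =>
    apply common_of_zero
    intro a b
    have : Subsingleton S.G := (Nat.card_eq_one_iff_unique.1 h).1
    rw [Subsingleton.elim b 1, S.q_one]
  | L10 S h h1 h2 => exact common_of_zero S h2
  | L11 S h h1 h2 => exact common_of_zero S h2
  | L1 S h h1 h2 =>
    refine ⟨S.neg, fun β => ?_⟩
    have hG : ∀ g : S.G, g = 1 ∨ g = S.neg := by
      intro g
      obtain ⟨x, y, hxy, huniv⟩ := Nat.card_eq_two_iff.1 h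
      have m : ∀ t : S.G, t = x ∨ t = y := by
        intro t
        have : t ∈ ({x, y} : Set S.G) := by rw [huniv]; trivial
        simpa using this
      rcases m g with rfl | rfl <;> rcases m 1 with h3 | h3 <;> rcases m S.neg with h4 | h4
      all_goals first
        | (left; exact h3.symm)
        | (right; exact h4.symm)
        | (exfalso; exact h1 (h4.trans h3.symm))
    obtain ⟨c, d, rfl⟩ := S.surj β
    rcases hG c with rfl | rfl
    · exact ⟨1, by rw [S.q_one, S.qs2, S.q_one]⟩
    · exact ⟨d, rfl⟩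
  | loc S hf h h1 h2 =>
    obtain ⟨x, y, hxy, huniv⟩ := Nat.card_eq_two_iff.1 h2
    have m : ∀ t : S.Q, t = x ∨ t = y := by
      intro t
      have : t ∈ ({x, y} : Set S.Q) := by rw [huniv]; trivial
      simpa using this
    obtain ⟨a, ha⟩ : ∃ a : S.G, a ≠ 1 := by
      by_contra hc
      push Not at hc
      have : Subsingleton S.G := ⟨fun a b => by rw [hc a, hc b]⟩
      have : Nat.card S.G = 1 := Nat.card_unique
      omega
    obtain ⟨b, hb⟩ : ∃ b, S.q a b ≠ S.zero := by
      by_contra hc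
      push Not at hc
      exact ha (h1 a hc)
    refine ⟨a, fun β => ?_⟩
    by_cases hβ : β = S.zero
    · exact ⟨1, by rw [S.q_one, hβ]⟩
    · refine ⟨b, ?_⟩
      rcases m β with h3 | h3 <;> rcases m (S.q a b) with h4 | h4 <;> rcases m S.zero with h5 | h5
      all_goals first
        | exact h4.trans h3.symm
        | exact absurd (h3.trans h5.symm) hβ
        | exact absurd (h4.trans h5.symm) hb
  | prod S T _ _ h1 h2 =>
    obtain ⟨a, ha⟩ := h1
    obtain ⟨b, hb⟩ := h2
    refine ⟨(a, b), ?_⟩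
    rintro ⟨β, γ⟩
    obtain ⟨c, hc⟩ := ha β
    obtain ⟨d, hd⟩ := hb γ
    exact ⟨(c, d), Prod.ext hc hd⟩
  | ext D hD _ _ =>
    refine ⟨(1, Multiplicative.ofAdd 1), ?_⟩
    rintro ⟨p, u, v, rfl⟩
    refine ⟨((extMap D u v).2, 1), Subtype.ext ?_⟩
    change extMap D (1, Multiplicative.ofAdd 1) ((extMap D u v).2, 1) = _
    rw [extMap_x_one]
    apply Prod.ext
    · change D.q _ _ = D.q _ _
      rw [hD, hD]
    · rfl
  | iso S T h _ h2 =>
    obtain ⟨φ, _, h3⟩ := h
    obtain ⟨a, ha⟩ := h2
    refine ⟨φ a, ?_⟩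
    intro β
    obtain ⟨c, d, rfl⟩ := T.surj β
    obtain ⟨b, hb⟩ := ha (S.q (φ.symm c) (φ.symm d))
    refine ⟨φ b, ?_⟩
    have := (h3 a b (φ.symm c) (φ.symm d)).1 hb
    simpa using this

/-- Main theorem. -/
theorem main (S : QStruct) [Finite S.G] :
    ((∃ a, CommonSlot S a) ↔ SlotType S) ∧ ((∃ a, CommonSlot S a) → ElemType S) := by
  refine ⟨⟨?_, SlotType.common⟩, ?_⟩
  · rintro ⟨a, ha⟩; exact slot_main ha
  · rintro ⟨a, ha⟩; exact (slot_main ha).elem

end main

end QS
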