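import Mathlib

/-!
Linear algebra over `ZMod 2` for linked symmetric maps `q : V → V → B`.
-/

namespace CommonSlot

variable {V B : Type} [AddCommGroup V] [Module (ZMod 2) V] [AddCommGroup B] [Module (ZMod 2) B]

/-- A linked symmetric bilinear map with distinguished element `e`. -/
structure IsLinked (q : V →ₗ[ZMod 2] V →ₗ[ZMod 2] B) (e : V) : Prop where
  symm : ∀ a b, q a b = q b a
  diag : ∀ a, q a a = q a e
  link : ∀ a b c d, q a b = q c d → ∃ x, q a x = q a b ∧ q c x = q a b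

/-- `x` is a common slot. -/
def Full (q : V →ₗ[ZMod 2] V →ₗ[ZMod 2] B) (x : V) : Prop := Function.Surjective (q x)

/-- The form `act q μ x v = μ (q x v)`. -/
def act (q : V →ₗ[ZMod 2] V →ₗ[ZMod 2] B) (μ : B →ₗ[ZMod 2] ZMod 2) :
    V →ₗ[ZMod 2] V →ₗ[ZMod 2] ZMod 2 := q.compr₂ μ

@[simp] theorem act_apply (q : V →ₗ[ZMod 2] V →ₗ[ZMod 2] B) (μ : B →ₗ[ZMod 2] ZMod 2) (x v : V) :
    act q μ x v = μ (q x v) := rfl

theorem act_add (q : V →ₗ[ZMod 2] V →ₗ[ZMod 2] B) (μ ν : B →ₗ[ZMod 2] ZMod 2) :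
    act q (μ + ν) = act q μ + act q ν := by
  ext x v; simp

theorem act_zero (q : V →ₗ[ZMod 2] V →ₗ[ZMod 2] B) :
    act q (0 : B →ₗ[ZMod 2] ZMod 2) = 0 := by
  ext x v; simp

theorem act_sum (q : V →ₗ[ZMod 2] V →ₗ[ZMod 2] B) {ι : Type} (s : Finset ι)
    (f : ι → (B →ₗ[ZMod 2] ZMod 2)) (x : V) :
    act q (∑ i ∈ s, f i) x = ∑ i ∈ s, act q (f i) x := by
  ext v; simp

theorem zm (a : ZMod 2) : a = 0 ∨ a = 1 := by revert a; decide

theorem zm_ne_zero {a : ZMod 2} (h : a ≠ 0) : a = 1 := by revert a; decide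

theorem zm_ne_one {a : ZMod 2} (h : a ≠ 1) : a = 0 := by revert a; decide

section two
variable {M : Type} [AddCommGroup M] [Module (ZMod 2) M]

theorem add_add_self (x y : M) : x + (x + y) = y := by
  rw [← add_assoc, ZModModule.add_self, zero_add]

theorem eq_of_add_eq_zero' {x y : M} (h : x + y = 0) : x = y := by
  have := congrArg (fun t => t + y) h
  simp only [zero_add] at this
  rw [add_assoc, ZModModule.add_self, add_zero] at this
  exact this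

theorem add_eq_zero_of_eq {x y : M} (h : x = y) : x + y = 0 := by
  rw [h, ZModModule.add_self]

end two

/-- functional equality from kernels. -/
theorem fun_eq_of_ker {f g : V →ₗ[ZMod 2] ZMod 2} (hg : g ≠ 0) (h : ∀ v, f v = 0 → g v = 0) :
    f = g := by
  obtain ⟨v0, hv0⟩ : ∃ v0, g v0 ≠ 0 := by
    by_contra hc
    push Not at hc
    exact hg (LinearMap.ext hc)
  have hf0 : f v0 = 1 := zm_ne_zero (fun h0 => hv0 (h v0 h0))
  have hg0 : g v0 = 1 := zm_ne_zero hv0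
  ext v
  rcases zm (f v) with h1 | h1
  · rw [h1, h v h1]
  · have h2 : f (v + v0) = 0 := by rw [map_add, h1, hf0]; decide
    have h3 := h _ h2
    rw [map_add, hg0] at h3
    rw [h1]
    rcases zm (g v) with h4 | h4
    · rw [h4] at h3; exact absurd h3 (by decide)
    · exact h4.symm

theorem fun_mem_pair {f g : V →ₗ[ZMod 2] ZMod 2} (h : ∀ v, f v = 0 → g v = 0) :
    g = 0 ∨ g = f := by
  by_cases hg : g = 0
  · exact Or.inl hg
  · exact Or.inr (fun_eq_of_ker hg h).symm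

section
variable {q : V →ₗ[ZMod 2] V →ₗ[ZMod 2] B} {e : V}

/-- dual linkage -/
theorem dual_link (hq : IsLinked q e) {μ ν : B →ₗ[ZMod 2] ZMod 2} {x z : V}
    (h : act q μ x = act q ν z) : ∃ κ : B →ₗ[ZMod 2] ZMod 2, act q κ x = act q μ x ∧
      act q κ z = act q μ x := by
  let g : V × V →ₗ[ZMod 2] B := (q x).coprod (q z)
  let f : V × V →ₗ[ZMod 2] ZMod 2 := (act q μ x).coprod (act q μ x)
  have hker : f ∈ (LinearMap.ker g).dualAnnihilator := by
    rw [Submodule.mem_dualAnnihilator]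
    rintro ⟨v, w⟩ hvw
    have h1 : q x v = q z w := by
      apply eq_of_add_eq_zero'
      simpa [g] using hvw
    obtain ⟨t, ht1, ht2⟩ := hq.link x v z w h1
    have e1 : act q μ x v = act q μ x t := by simp [ht1]
    have e2 : act q μ x w = act q μ x t := by
      rw [h]; simp [ht2, h1]
    simp only [f, LinearMap.coprod_apply]
    rw [e1, e2, ZModModule.add_self]
  rw [← LinearMap.range_dualMap_eq_dualAnnihilator_ker] at hker
  obtain ⟨κ, hκ⟩ := hker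
  refine ⟨κ, ?_, ?_⟩
  · ext v
    have := LinearMap.congr_fun hκ (v, 0)
    simpa [g, f] using this
  · ext v
    have := LinearMap.congr_fun hκ (0, v)
    simpa [g, f] using this

theorem Full.act_inj {x : V} (hx : Full q x) {μ ν : B →ₗ[ZMod 2] ZMod 2}
    (h : act q μ x = act q ν x) : μ = ν := by
  ext β
  obtain ⟨v, rfl⟩ := hx β
  exact LinearMap.congr_fun h v

theorem Full.act_eq_zero {x : V} (hx : Full q x) {μ : B →ₗ[ZMod 2] ZMod 2}
    (h : act q μ x = 0) : μ = 0 := by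
  apply hx.act_inj
  rw [h, act_zero]; rfl

/-- L2 -/
theorem full_type (hq : IsLinked q e) {x : V} (hx : Full q x) {μ ν : B →ₗ[ZMod 2] ZMod 2} {z : V}
    (h : act q μ x = act q ν z) : act q μ z = act q μ x := by
  obtain ⟨κ, h1, h2⟩ := dual_link hq h
  rw [← hx.act_inj h1]
  rw [hx.act_inj h1] at h2 ⊢
  exact h2

/-- `N μ` -/
abbrev N (q : V →ₗ[ZMod 2] V →ₗ[ZMod 2] B) (μ : B →ₗ[ZMod 2] ZMod 2) : Submodule (ZMod 2) V :=
  LinearMap.ker (act q μ)

/-- `μ V` -/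
abbrev R (q : V →ₗ[ZMod 2] V →ₗ[ZMod 2] B) (μ : B →ₗ[ZMod 2] ZMod 2) :
    Submodule (ZMod 2) (V →ₗ[ZMod 2] ZMod 2) :=
  LinearMap.range (act q μ)

theorem mem_N {μ : B →ₗ[ZMod 2] ZMod 2} {z : V} : z ∈ N q μ ↔ act q μ z = 0 := LinearMap.mem_ker

theorem act_symm (hq : IsLinked q e) (μ : B →ₗ[ZMod 2] ZMod 2) (x y : V) :
    act q μ x y = act q μ y x := by
  simp [hq.symm x y]

theorem R_vanish (hq : IsLinked q e) {μ : B →ₗ[ZMod 2] ZMod 2} {φ : V →ₗ[ZMod 2] ZMod 2}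
    (hφ : φ ∈ R q μ) {z : V} (hz : z ∈ N q μ) : φ z = 0 := by
  obtain ⟨y, rfl⟩ := hφ
  rw [act_symm hq, mem_N.1 hz]; rfl

theorem mem_R_of_vanish [Module.Finite (ZMod 2) V] (hq : IsLinked q e)
    {μ : B →ₗ[ZMod 2] ZMod 2} {φ : V →ₗ[ZMod 2] ZMod 2}
    (hφ : ∀ z ∈ N q μ, φ z = 0) : φ ∈ R q μ := by
  have h1 : φ ∈ (LinearMap.ker (act q μ)).dualAnnihilator := by
    rw [Submodule.mem_dualAnnihilator]; exact hφ
  rw [← LinearMap.range_dualMap_eq_dualAnnihilator_ker] at h1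
  obtain ⟨F, hF⟩ := h1
  obtain ⟨v, rfl⟩ := (Module.evalEquiv (ZMod 2) V).surjective F
  refine ⟨v, ?_⟩
  ext y
  have := LinearMap.congr_fun hF y
  rw [act_symm hq]
  simpa using this

/-- L3 -/
theorem lemmaA (hq : IsLinked q e) {μ ν : B →ₗ[ZMod 2] ZMod 2} {m m' : V}
    (hx : Full q (m + m')) (hm : m ∈ N q μ) (hm' : m' ∈ N q ν) :
    N q (μ + ν) ≤ N q μ ⊓ N q ν := by
  have key : ∀ z ∈ N q (μ + ν), act q μ z = 0 := by
    intro z hz
    rw [mem_N] at hm hm' hz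
    have h1 : act q μ (m + m') = act q (μ + ν) (m' + z) := by
      rw [map_add, map_add, hm, hz, act_add, LinearMap.add_apply, hm', zero_add, add_zero, add_zero]
    have h2 := full_type hq hx h1
    rw [map_add, map_add, hm, zero_add] at h2
    exact add_eq_left.1 h2
  intro z hz
  have h0 := key z hz
  refine ⟨mem_N.2 h0, mem_N.2 ?_⟩
  rw [mem_N, act_add, LinearMap.add_apply, h0, zero_add] at hz
  exact hz

theorem add_cancel_two (μ ν : B →ₗ[ZMod 2] ZMod 2) : (μ + ν) + ν = μ := by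
  rw [add_assoc, ZModModule.add_self, add_zero]

/-- L4 -/
theorem le_of_act_mem (hq : IsLinked q e) {x : V} (hx : Full q x)
    {μ ν : B →ₗ[ZMod 2] ZMod 2} (h : act q ν x ∈ R q μ) : N q μ ≤ N q ν := by
  obtain ⟨z, hz⟩ := h
  have h1 := full_type hq hx hz.symm
  have hz1 : z ∈ N q (μ + ν) := by
    rw [mem_N, act_add, LinearMap.add_apply, h1, hz, ZModModule.add_self]
  have hz2 : z + x ∈ N q ν := by
    rw [mem_N, map_add, h1, ZModModule.add_self]
  have h2 := lemmaA hq (m := z) (m' := z + x) (by rwa [add_add_self]) hz1 hz2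
  rw [add_cancel_two] at h2
  exact h2.trans inf_le_right

theorem act_mem_iff [Module.Finite (ZMod 2) V] (hq : IsLinked q e) {x : V} (hx : Full q x)
    {μ ν : B →ₗ[ZMod 2] ZMod 2} : act q ν x ∈ R q μ ↔ N q μ ≤ N q ν := by
  constructor
  · exact le_of_act_mem hq hx
  · intro h
    exact mem_R_of_vanish hq (fun z hz => by rw [act_symm hq, mem_N.1 (h hz)]; rfl)

theorem exists_functional {W : Type} [AddCommGroup W] [Module (ZMod 2) W]
    {p : Submodule (ZMod 2) W} {x : W} (hx : x ∉ p) :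
    ∃ f : W →ₗ[ZMod 2] ZMod 2, f x ≠ 0 ∧ ∀ y ∈ p, f y = 0 := by
  obtain ⟨f, hf, hp⟩ := Submodule.exists_dual_map_eq_bot_of_notMem hx inferInstance
  refine ⟨f, hf, fun y hy => ?_⟩
  have : f y ∈ p.map f := Submodule.mem_map_of_mem hy
  rw [hp] at this
  simpa using this

/-- L4' -/
theorem slot_in_N [Module.Finite (ZMod 2) V] (hq : IsLinked q e) {x : V} (hx : Full q x)
    {μ : B →ₗ[ZMod 2] ZMod 2} {β : B}
    (h : ∀ ν : B →ₗ[ZMod 2] ZMod 2, N q μ ≤ N q ν → ν β = 0) : ∃ y ∈ N q μ, q x y = β := by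
  by_contra hc
  have h1 : β ∉ (N q μ).map (q x) := by
    rintro ⟨y, hy, hy2⟩
    exact hc ⟨y, hy, hy2⟩
  obtain ⟨ν, h2, h3⟩ := exists_functional h1
  apply h2
  apply h
  apply le_of_act_mem hq hx
  apply mem_R_of_vanish hq
  intro z hz
  exact h3 _ (Submodule.mem_map_of_mem hz)

/-- L6 -/
theorem consist (hq : IsLinked q e) {κ κ' : B →ₗ[ZMod 2] ZMod 2} {y y' v v' : V}
    {φ : V →ₗ[ZMod 2] ZMod 2}
    (h1 : act q κ y = φ) (h2 : act q κ' y' = φ) (h : q y v = q y' v') : φ v = φ v' := by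
  obtain ⟨t, ht1, ht2⟩ := hq.link y v y' v' h
  have e1 : φ v = φ t := by rw [← h1]; simp [ht1]
  have e2 : φ v' = φ t := by rw [← h2]; simp [ht2, h]
  rw [e1, e2]

/-- atomic elements -/
def Atomic (q : V →ₗ[ZMod 2] V →ₗ[ZMod 2] B) (μ : B →ₗ[ZMod 2] ZMod 2) : Prop :=
  μ ≠ 0 ∧ ∀ ν : B →ₗ[ZMod 2] ZMod 2, ν ≠ 0 → N q μ ≤ N q ν → ν = μ

/-- L7, basic part -/
theorem tri_aux [Module.Finite (ZMod 2) V] (hq : IsLinked q e)
    {μ : B →ₗ[ZMod 2] ZMod 2} (hμ : Atomic q μ) {φ : V →ₗ[ZMod 2] ZMod 2} {y₁ : V}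
    (hy₁ : act q μ y₁ = φ) {x : V} (hx : Full q x) {κ : B →ₗ[ZMod 2] ZMod 2} {y' v' : V}
    (hy' : act q κ y' = φ) (h : μ (q y' v') = φ x) : φ v' = φ x := by
  obtain ⟨m, hm, hm2⟩ : ∃ m ∈ N q μ, q x m = q y' v' + q x y₁ := by
    apply slot_in_N hq hx
    intro ν hν
    by_cases h0 : ν = 0
    · simp [h0]
    · rw [hμ.2 ν h0 hν, map_add, h, ← hy₁]
      simp only [act_apply]
      rw [hq.symm y₁ x, ZModModule.add_self]
  have h1 : q (y₁ + m) x = q y' v' := by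
    rw [hq.symm, map_add, hm2, add_comm (q y' v'), add_add_self]
  have h2 : act q μ (y₁ + m) = φ := by
    rw [map_add, mem_N.1 hm, add_zero, hy₁]
  exact (consist hq h2 hy' h1).symm

/-- L7, first half -/
theorem tri_one [Module.Finite (ZMod 2) V] (hq : IsLinked q e)
    {μ lam : B →ₗ[ZMod 2] ZMod 2} (hμ : Atomic q μ) (hl : ¬ N q lam ≤ N q μ)
    {φ : V →ₗ[ZMod 2] ZMod 2} (h0 : φ ≠ 0) (h1 : φ ∈ R q μ) (h2 : φ ∈ R q lam)
    {x : V} (hx : Full q x) : φ x = 1 := by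
  obtain ⟨y₁, hy₁⟩ := h1
  obtain ⟨z, hz⟩ := h2
  by_contra hc
  have hφx := zm_ne_one hc
  apply hl
  have key : ∀ (κ : B →ₗ[ZMod 2] ZMod 2) (y' : V), act q κ y' = φ → act q μ y' = φ := by
    intro κ y' hy'
    apply fun_eq_of_ker h0
    intro v hv
    rw [tri_aux hq hμ hy₁ hx hy' (by rw [hφx]; exact hv), hφx]
  intro n hn
  rw [mem_N] at hn ⊢
  have e1 := key lam z hz
  have e2 := key lam (z + n) (by rw [map_add, hn, add_zero, hz])
  rw [map_add, e1] at e2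
  exact add_eq_left.1 e2

/-- L7, second half -/
theorem tri_two [Module.Finite (ZMod 2) V] (hq : IsLinked q e)
    {μ lam : B →ₗ[ZMod 2] ZMod 2} (hμ : Atomic q μ) (hl : ¬ N q lam ≤ N q μ)
    {φ : V →ₗ[ZMod 2] ZMod 2} (h0 : φ ≠ 0) (h1 : φ ∈ R q μ) (h2 : φ ∈ R q lam)
    {x : V} (hx : Full q x) {κ : B →ₗ[ZMod 2] ZMod 2} {y : V} (hy : act q κ y = φ) :
    act q μ y = 0 ∨ act q μ y = φ := by
  have h3 := tri_one hq hμ hl h0 h1 h2 hx
  obtain ⟨y₁, hy₁⟩ := h1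
  apply fun_mem_pair
  intro v hv
  apply zm_ne_one
  intro h4
  have h5 := tri_aux hq hμ hy₁ hx hy (v' := v) (by rw [h3]; exact h4)
  rw [hv, h3] at h5
  exact absurd h5 (by decide)

/-- consequence: `μ N_λ ⊆ {0, φ}` -/
theorem tri_N [Module.Finite (ZMod 2) V] (hq : IsLinked q e)
    {μ lam : B →ₗ[ZMod 2] ZMod 2} (hμ : Atomic q μ) (hl : ¬ N q lam ≤ N q μ)
    {φ : V →ₗ[ZMod 2] ZMod 2} (h0 : φ ≠ 0) (h1 : φ ∈ R q μ) (h2 : φ ∈ R q lam)
    {x : V} (hx : Full q x) {n : V} (hn : n ∈ N q lam) :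
    act q μ n = 0 ∨ act q μ n = φ := by
  have hh2 := h2
  obtain ⟨z, hz⟩ := h2
  rw [mem_N] at hn
  have e1 := tri_two hq hμ hl h0 h1 hh2 hx hz
  have e2 := tri_two hq hμ hl h0 h1 hh2 hx (κ := lam) (y := z + n)
    (by rw [map_add, hn, add_zero, hz])
  rw [map_add] at e2
  rcases e1 with e1 | e1 <;> rcases e2 with e2 | e2
  · left; rwa [e1, zero_add] at e2
  · right; rwa [e1, zero_add] at e2
  · right; rw [e1] at e2; exact (eq_of_add_eq_zero' e2).symm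
  · left; rw [e1] at e2; exact add_eq_left.1 e2

/-- existence of `n ∈ N_λ` with `μ n = φ`. -/
theorem tri_ex [Module.Finite (ZMod 2) V] (hq : IsLinked q e)
    {μ lam : B →ₗ[ZMod 2] ZMod 2} (hμ : Atomic q μ) (hl : ¬ N q lam ≤ N q μ)
    {φ : V →ₗ[ZMod 2] ZMod 2} (h0 : φ ≠ 0) (h1 : φ ∈ R q μ) (h2 : φ ∈ R q lam)
    {x : V} (hx : Full q x) : ∃ n ∈ N q lam, act q μ n = φ := by
  by_contra hc
  push Not at hc
  apply hl
  intro n hn
  rw [mem_N]
  exact (tri_N hq hμ hl h0 h1 h2 hx hn).resolve_right (hc n hn)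

theorem tri_unique [Module.Finite (ZMod 2) V] (hq : IsLinked q e)
    {μ lam : B →ₗ[ZMod 2] ZMod 2} (hμ : Atomic q μ) (hl : ¬ N q lam ≤ N q μ)
    {φ φ' : V →ₗ[ZMod 2] ZMod 2} (h0 : φ ≠ 0) (h1 : φ ∈ R q μ) (h2 : φ ∈ R q lam)
    (h0' : φ' ≠ 0) (h1' : φ' ∈ R q μ) (h2' : φ' ∈ R q lam)
    {x : V} (hx : Full q x) : φ' = φ := by
  obtain ⟨n, hn, hn2⟩ := tri_ex hq hμ hl h0 h1 h2 hx
  rcases tri_N hq hμ hl h0' h1' h2' hx hn with h | h
  · rw [hn2] at h; exact absurd h h0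
  · rw [← h, hn2]

end

end CommonSlot
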