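import Pool.Agent.Lib_MP_d26ff6_al.Lin1

namespace CommonSlot

variable {V B : Type} [AddCommGroup V] [Module (ZMod 2) V] [AddCommGroup B] [Module (ZMod 2) B]
variable {q : V →ₗ[ZMod 2] V →ₗ[ZMod 2] B} {e : V}

/-- common nonzero functional -/
def Rel (q : V →ₗ[ZMod 2] V →ₗ[ZMod 2] B) (μ ν : B →ₗ[ZMod 2] ZMod 2) : Prop :=
  ∃ φ : V →ₗ[ZMod 2] ZMod 2, φ ≠ 0 ∧ φ ∈ R q μ ∧ φ ∈ R q ν

theorem Rel.symm {μ ν : B →ₗ[ZMod 2] ZMod 2} (h : Rel q μ ν) : Rel q ν μ := by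
  obtain ⟨φ, h0, h1, h2⟩ := h
  exact ⟨φ, h0, h2, h1⟩

theorem rel_refl {x : V} (hx : Full q x) {μ : B →ₗ[ZMod 2] ZMod 2} (h : μ ≠ 0) : Rel q μ μ :=
  ⟨act q μ x, fun h0 => h (hx.act_eq_zero h0), ⟨x, rfl⟩, ⟨x, rfl⟩⟩

theorem not_le {μ ν : B →ₗ[ZMod 2] ZMod 2} (hμ : Atomic q μ) (hν : Atomic q ν) (h : μ ≠ ν) :
    ¬ N q ν ≤ N q μ := fun hc => h (hν.2 μ hμ.1 hc)

/-- commuting -/
theorem commute_aux (hq : IsLinked q e) {x : V} (hx : Full q x)
    {κ σ ν : B →ₗ[ZMod 2] ZMod 2} (h : act q κ x ∈ R q σ) {w : V} (hw : act q σ w = act q ν x) :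
    act q κ w ∈ R q ν := by
  obtain ⟨z, hz⟩ := h
  have h1 := full_type hq hx hz.symm
  have h2 := full_type hq hx hw.symm
  have h3 : act q (κ + ν) x = act q σ (z + w) := by
    rw [act_add, LinearMap.add_apply, map_add, hz, hw]
  have h4 := full_type hq hx h3
  rw [act_add, LinearMap.add_apply, LinearMap.add_apply, map_add, map_add, h1, h2] at h4
  refine ⟨z, ?_⟩
  have h5 : act q κ x + act q κ w + (act q ν z + act q ν x) + (act q κ x + act q ν x) = 0 := by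
    rw [h4, ZModModule.add_self]
  apply eq_of_add_eq_zero'
  calc act q ν z + act q κ w
      = (act q κ x + act q κ x) + (act q ν x + act q ν x) + (act q ν z + act q κ w) := by
        rw [ZModModule.add_self, ZModModule.add_self, zero_add, zero_add]
    _ = act q κ x + act q κ w + (act q ν z + act q ν x) + (act q κ x + act q ν x) := by abel
    _ = 0 := h5

section fin
variable [Module.Finite (ZMod 2) V]

theorem split_of_disj (hq : IsLinked q e) {μ ν : B →ₗ[ZMod 2] ZMod 2}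
    (h : ¬ Rel q μ ν) (v : V) : ∃ m ∈ N q μ, ∃ m' ∈ N q ν, m + m' = v := by
  by_contra hc
  have h1 : v ∉ N q μ ⊔ N q ν := by
    intro hv
    obtain ⟨m, hm, m', hm', h2⟩ := Submodule.mem_sup.1 hv
    exact hc ⟨m, hm, m', hm', h2⟩
  obtain ⟨θ, h2, h3⟩ := exists_functional h1
  apply h
  refine ⟨θ, ?_, ?_, ?_⟩
  · intro h0; rw [h0] at h2; exact h2 rfl
  · exact mem_R_of_vanish hq (fun z hz => h3 z (Submodule.mem_sup_left hz))
  · exact mem_R_of_vanish hq (fun z hz => h3 z (Submodule.mem_sup_right hz))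

theorem glue2 (hq : IsLinked q e) {μ ν : B →ₗ[ZMod 2] ZMod 2}
    (h : ¬ Rel q μ ν) (y z : V) : ∃ w, y + w ∈ N q μ ∧ z + w ∈ N q ν := by
  obtain ⟨m, hm, m', hm', h2⟩ := split_of_disj hq h (y + z)
  refine ⟨y + m, ?_, ?_⟩
  · rwa [add_add_self]
  · have : z + (y + m) = m' := by
      apply eq_of_add_eq_zero'
      calc z + (y + m) + m' = (y + z) + (m + m') := by abel
        _ = 0 := by rw [h2, ZModModule.add_self]
    rwa [this]

omit [Module.Finite (ZMod 2) V] in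
theorem mem_N_add {μ : B →ₗ[ZMod 2] ZMod 2} {y z : V} :
    y + z ∈ N q μ ↔ act q μ y = act q μ z := by
  rw [mem_N, map_add]
  constructor
  · exact eq_of_add_eq_zero'
  · intro h; rw [h, ZModModule.add_self]

theorem phi_zero (hq : IsLinked q e)
    {μ lam : B →ₗ[ZMod 2] ZMod 2} (hμ : Atomic q μ) (hl : ¬ N q lam ≤ N q μ)
    {φ : V →ₗ[ZMod 2] ZMod 2} (h0 : φ ≠ 0) (h1 : φ ∈ R q μ) (h2 : φ ∈ R q lam)
    {x : V} (hx : Full q x) {v : V} (hv : φ v = 0) : ∃ m ∈ N q μ, ∃ m' ∈ N q lam, m + m' = v := by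
  by_contra hc
  have h3 : v ∉ N q μ ⊔ N q lam := by
    intro hv
    obtain ⟨m, hm, m', hm', h2⟩ := Submodule.mem_sup.1 hv
    exact hc ⟨m, hm, m', hm', h2⟩
  obtain ⟨θ, h4, h5⟩ := exists_functional h3
  have h6 : θ = φ := by
    apply tri_unique hq hμ hl h0 h1 h2 _ _ _ hx
    · intro h0; rw [h0] at h4; exact h4 rfl
    · exact mem_R_of_vanish hq (fun z hz => h5 z (Submodule.mem_sup_left hz))
    · exact mem_R_of_vanish hq (fun z hz => h5 z (Submodule.mem_sup_right hz))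
  rw [h6] at h4
  exact h4 hv

theorem phi_zero_act (hq : IsLinked q e)
    {μ lam : B →ₗ[ZMod 2] ZMod 2} (hμ : Atomic q μ) (hl : ¬ N q lam ≤ N q μ)
    {φ : V →ₗ[ZMod 2] ZMod 2} (h0 : φ ≠ 0) (h1 : φ ∈ R q μ) (h2 : φ ∈ R q lam)
    {x : V} (hx : Full q x) {v : V} (hv : φ v = 0) : act q μ v = 0 ∨ act q μ v = φ := by
  obtain ⟨m, hm, m', hm', rfl⟩ := phi_zero hq hμ hl h0 h1 h2 hx hv
  rw [map_add, mem_N.1 hm, zero_add]
  exact tri_N hq hμ hl h0 h1 h2 hx hm'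

/-- claim in L8 -/
theorem act_full_eq (hq : IsLinked q e) {μ ν κ : B →ₗ[ZMod 2] ZMod 2}
    (hμ : Atomic q μ) (hν : Atomic q ν) (hκ : Atomic q κ) (h1 : μ ≠ ν) (h2 : μ ≠ κ)
    {φ φ' : V →ₗ[ZMod 2] ZMod 2} (hφ : φ ≠ 0) (hφ1 : φ ∈ R q μ) (hφ2 : φ ∈ R q ν)
    (hφ' : φ' ≠ 0) (hφ1' : φ' ∈ R q μ) (hφ2' : φ' ∈ R q κ) (hne : φ ≠ φ')
    {x : V} (hx : Full q x) : act q μ x = φ + φ' := by
  obtain ⟨n, hn, hn2⟩ := tri_ex hq hμ (not_le hμ hν h1) hφ hφ1 hφ2 hx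
  obtain ⟨n', hn', hn2'⟩ := tri_ex hq hμ (not_le hμ hκ h2) hφ' hφ1' hφ2' hx
  have e1 : φ n = 0 := R_vanish hq hφ2 hn
  have e2 : φ' n' = 0 := R_vanish hq hφ2' hn'
  have e3 : φ n' = φ' n := by rw [← hn2, ← hn2', act_symm hq]
  have e4 : φ n' = 1 := by
    apply zm_ne_zero
    intro h0
    rcases phi_zero_act hq hμ (not_le hμ hν h1) hφ hφ1 hφ2 hx h0 with h | h
    · rw [hn2'] at h; exact hφ' h
    · rw [hn2'] at h; exact hne h.symm
  have e5 : φ' n = 1 := by rw [← e3, e4]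
  have f1 := tri_one hq hμ (not_le hμ hν h1) hφ hφ1 hφ2 hx
  have f2 := tri_one hq hμ (not_le hμ hκ h2) hφ' hφ1' hφ2' hx
  have g1 : φ (x + (n + n')) = 0 := by
    rw [map_add, map_add, f1, e1, e4]; decide
  have g2 : φ' (x + (n + n')) = 0 := by
    rw [map_add, map_add, f2, e5, e2]; decide
  have g3 := phi_zero_act hq hμ (not_le hμ hν h1) hφ hφ1 hφ2 hx g1
  have g4 := phi_zero_act hq hμ (not_le hμ hκ h2) hφ' hφ1' hφ2' hx g2
  have g5 : act q μ (x + (n + n')) = 0 := by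
    rcases g3 with g3 | g3
    · exact g3
    · rcases g4 with g4 | g4
      · exact g4
      · rw [g3] at g4; exact absurd g4 hne
  rw [map_add, map_add, hn2, hn2'] at g5
  exact eq_of_add_eq_zero' g5

/-- L8 -/
theorem phi_center (hq : IsLinked q e) {μ ν κ : B →ₗ[ZMod 2] ZMod 2}
    (hμ : Atomic q μ) (hν : Atomic q ν) (hκ : Atomic q κ) (h1 : μ ≠ ν) (h2 : μ ≠ κ)
    {φ φ' : V →ₗ[ZMod 2] ZMod 2} (hφ : φ ≠ 0) (hφ1 : φ ∈ R q μ) (hφ2 : φ ∈ R q ν)
    (hφ' : φ' ≠ 0) (hφ1' : φ' ∈ R q μ) (hφ2' : φ' ∈ R q κ)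
    {x : V} (hx : Full q x) : φ = φ' := by
  by_contra hne
  have hx1 := act_full_eq hq hμ hν hκ h1 h2 hφ hφ1 hφ2 hφ' hφ1' hφ2' hne hx
  by_cases hνκ : Rel q ν κ
  · obtain ⟨χ, hχ, hχ1, hχ2⟩ := hνκ
    have hn1 : ν ≠ κ := by
      intro h; subst h
      exact hne (tri_unique hq hμ (not_le hμ hν h1) hφ' hφ1' hφ2' hφ hφ1 hφ2 hx)
    have hn2 : φ ≠ χ := by
      intro h; subst h
      exact hne (tri_unique hq hμ (not_le hμ hκ h2) hφ' hφ1' hφ2' hφ hφ1 hχ2 hx)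
    have hn3 : φ' ≠ χ := by
      intro h; subst h
      exact hne (tri_unique hq hμ (not_le hμ hν h1) hφ' hφ1' hχ1 hφ hφ1 hφ2 hx)
    have hx2 := act_full_eq hq hν hμ hκ (Ne.symm h1) hn1 hφ hφ2 hφ1 hχ hχ1 hχ2 hn2 hx
    have hx3 := act_full_eq hq hκ hμ hν (Ne.symm h2) (Ne.symm hn1) hφ' hφ2' hφ1' hχ hχ2 hχ1 hn3 hx
    have h3 : act q (μ + ν + κ) x = 0 := by
      rw [act_add, act_add, LinearMap.add_apply, LinearMap.add_apply, hx1, hx2, hx3]
      calc φ + φ' + (φ + χ) + (φ' + χ) = (φ + φ) + (φ' + φ') + (χ + χ) := by abel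
        _ = 0 := by simp [ZModModule.add_self]
    have h4 : μ + ν = κ := eq_of_add_eq_zero' (hx.act_eq_zero h3)
    obtain ⟨n, hn, hn2⟩ := tri_ex hq hν (not_le hν hμ (Ne.symm h1)) hφ hφ2 hφ1 hx
    have h5 : act q κ n = φ := by
      rw [← h4, act_add, LinearMap.add_apply, mem_N.1 hn, zero_add, hn2]
    rcases tri_N hq hκ (not_le hκ hμ (Ne.symm h2)) hφ' hφ2' hφ1' hx hn with h | h
    · rw [h5] at h; exact hφ h
    · rw [h5] at h; exact hne h
  · obtain ⟨m, hm, m', hm', hmm⟩ := split_of_disj hq hνκ x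
    subst hmm
    have h3 := lemmaA hq hx hm hm'
    have h4 : N q (ν + κ) ≤ N q μ := by
      intro w hw
      have hw2 := h3 hw
      rw [mem_N]
      rcases tri_N hq hμ (not_le hμ hν h1) hφ hφ1 hφ2 hx hw2.1 with h | h
      · exact h
      · rcases tri_N hq hμ (not_le hμ hκ h2) hφ' hφ1' hφ2' hx hw2.2 with h' | h'
        · exact h'
        · rw [h] at h'; exact absurd h' hne
    have h5 : act q μ (m + m') ∈ R q (ν + κ) := (act_mem_iff hq hx).2 h4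
    have h6 : act q (ν + κ) m' = act q ν (m + m') := by
      rw [act_add, LinearMap.add_apply, mem_N.1 hm', map_add, mem_N.1 hm, zero_add, add_zero]
    have h7 : act q (ν + κ) m = act q κ (m + m') := by
      rw [act_add, LinearMap.add_apply, map_add, mem_N.1 hm', mem_N.1 hm, zero_add, add_zero]
    have h8 := commute_aux hq hx h5 h6
    have h9 := commute_aux hq hx h5 h7
    have h10 : act q μ m' = 0 := by
      by_contra hc
      rcases tri_N hq hμ (not_le hμ hκ h2) hφ' hφ1' hφ2' hx hm' with h' | h'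
      · exact hc h'
      · have : act q μ m' = φ :=
          tri_unique hq hμ (not_le hμ hν h1) hφ hφ1 hφ2 hc ⟨m', rfl⟩ h8 hx
        exact hne (this.symm.trans h')
    have h11 : act q μ m = 0 := by
      by_contra hc
      rcases tri_N hq hμ (not_le hμ hν h1) hφ hφ1 hφ2 hx hm with h' | h'
      · exact hc h'
      · have : act q μ m = φ' :=
          tri_unique hq hμ (not_le hμ hκ h2) hφ' hφ1' hφ2' hc ⟨m, rfl⟩ h9 hx
        exact hne (h'.symm.trans this)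
    apply hμ.1
    apply hx.act_eq_zero
    rw [map_add, h10, h11, add_zero]

theorem rel_trans (hq : IsLinked q e) {x : V} (hx : Full q x) {μ ν κ : B →ₗ[ZMod 2] ZMod 2}
    (hμ : Atomic q μ) (hν : Atomic q ν) (hκ : Atomic q κ) (h1 : Rel q μ ν) (h2 : Rel q ν κ) :
    Rel q μ κ := by
  by_cases e1 : μ = ν
  · subst e1; exact h2
  by_cases e2 : ν = κ
  · subst e2; exact h1
  obtain ⟨φ, a1, a2, a3⟩ := h1
  obtain ⟨φ', b1, b2, b3⟩ := h2
  have := phi_center hq hν hμ hκ (Ne.symm e1) e2 a1 a3 a2 b1 b2 b3 hx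
  subst this
  exact ⟨φ, a1, a2, b3⟩

/-- L5 -/
theorem split_below (hq : IsLinked q e) {x : V} (hx : Full q x)
    {lam κ : B →ₗ[ZMod 2] ZMod 2} (h : N q lam ≤ N q κ) (h0 : κ ≠ 0) (h1 : κ ≠ lam) :
    (∃ z ∈ N q (lam + κ), x + z ∈ N q κ) ∧ N q lam < N q κ ∧ N q lam < N q (lam + κ) := by
  obtain ⟨z, hz⟩ := (act_mem_iff hq hx).2 h
  have h2 := full_type hq hx hz.symm
  have hz1 : z ∈ N q (lam + κ) := by
    rw [mem_N, act_add, LinearMap.add_apply, h2, hz, ZModModule.add_self]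
  have hz2 : x + z ∈ N q κ := by
    rw [mem_N, map_add, h2, ZModModule.add_self]
  have h3 := lemmaA hq (m := z) (m' := x + z) (by rwa [show z + (x + z) = x by
      rw [add_comm x z, add_add_self]]) hz1 hz2
  rw [add_cancel_two] at h3
  refine ⟨⟨z, hz1, hz2⟩, lt_of_le_of_ne h ?_, lt_of_le_of_ne (h3.trans inf_le_left) ?_⟩
  · intro hc
    have h4 : x + z ∈ N q (lam + κ) := by
      have : x + z ∈ N q lam := by rw [hc]; exact hz2
      exact (h3 this).1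
    have h5 : x ∈ N q (lam + κ) := by
      have := Submodule.add_mem _ h4 hz1
      rwa [add_assoc, ZModModule.add_self, add_zero] at this
    exact h1 (eq_of_add_eq_zero' (hx.act_eq_zero (mem_N.1 h5))).symm
  · intro hc
    have h4 : z ∈ N q κ := by
      apply h; rw [hc]; exact hz1
    have h5 : x ∈ N q κ := by
      have := Submodule.add_mem _ hz2 h4
      rwa [add_assoc, ZModModule.add_self, add_zero] at this
    exact h0 (hx.act_eq_zero (mem_N.1 h5))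

theorem exists_atomic (hq : IsLinked q e) {x : V} (hx : Full q x)
    {lam : B →ₗ[ZMod 2] ZMod 2} (h : lam ≠ 0) : ∃ κ, Atomic q κ ∧ N q lam ≤ N q κ := by
  by_contra hc
  push Not at hc
  have key : ∀ n : ℕ, ∃ κ : B →ₗ[ZMod 2] ZMod 2, κ ≠ 0 ∧ N q lam ≤ N q κ ∧
      n ≤ Module.finrank (ZMod 2) (N q κ) := by
    intro n
    induction n with
    | zero => exact ⟨lam, h, le_rfl, Nat.zero_le _⟩
    | succ n ih =>
      obtain ⟨κ, k1, k2, k3⟩ := ih
      have k4 : ¬ Atomic q κ := fun ha => hc κ ha k2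
      have k5 : ∃ ν : B →ₗ[ZMod 2] ZMod 2, ν ≠ 0 ∧ N q κ ≤ N q ν ∧ ν ≠ κ := by
        by_contra hcc
        push Not at hcc
        exact k4 ⟨k1, fun ν hν hle => hcc ν hν hle⟩
      obtain ⟨ν, n1, n2, n3⟩ := k5
      have := (split_below hq hx n2 n1 n3).2.1
      refine ⟨ν, n1, k2.trans n2, ?_⟩
      have := Submodule.finrank_lt_finrank_of_lt this
      omega
  obtain ⟨κ, _, _, k3⟩ := key (Module.finrank (ZMod 2) V + 1)
  have := Submodule.finrank_le (N q κ)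
  omega

end fin

end CommonSlot
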