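import Pool.Agent.Lib_MP_d26ff6_al.Lin2

namespace CommonSlot

open scoped Classical in
section

variable {V B : Type} [AddCommGroup V] [Module (ZMod 2) V] [AddCommGroup B] [Module (ZMod 2) B]
variable {q : V →ₗ[ZMod 2] V →ₗ[ZMod 2] B} {e : V}

/-- independence of the spaces `ν V`, `ν ∈ A` -/
def Indep (q : V →ₗ[ZMod 2] V →ₗ[ZMod 2] B) (A : Finset (B →ₗ[ZMod 2] ZMod 2)) : Prop :=
  ∀ f : (B →ₗ[ZMod 2] ZMod 2) → (V →ₗ[ZMod 2] ZMod 2), (∀ ν ∈ A, f ν ∈ R q ν) →
    ∑ ν ∈ A, f ν = 0 → ∀ ν ∈ A, f ν = 0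

/-- pairwise inequivalent atomic elements -/
def PI (q : V →ₗ[ZMod 2] V →ₗ[ZMod 2] B) (A : Finset (B →ₗ[ZMod 2] ZMod 2)) : Prop :=
  (∀ ν ∈ A, Atomic q ν) ∧ ∀ μ ∈ A, ∀ ν ∈ A, μ ≠ ν → ¬ Rel q μ ν

theorem PI.mono {A A' : Finset (B →ₗ[ZMod 2] ZMod 2)} (h : PI q A) (hs : A' ⊆ A) : PI q A' :=
  ⟨fun ν hν => h.1 ν (hs hν), fun μ hμ ν hν => h.2 μ (hs hμ) ν (hs hν)⟩

theorem indep_N {A : Finset (B →ₗ[ZMod 2] ZMod 2)} (h : Indep q A) {z : V}
    (hz : z ∈ N q (∑ ν ∈ A, ν)) {ν : B →ₗ[ZMod 2] ZMod 2} (hν : ν ∈ A) : z ∈ N q ν := by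
  rw [mem_N] at hz ⊢
  rw [act_sum] at hz
  exact h (fun ν => act q ν z) (fun ν _ => ⟨z, rfl⟩) hz ν hν

theorem Indep.mono {A A' : Finset (B →ₗ[ZMod 2] ZMod 2)} (h : Indep q A) (hs : A' ⊆ A) :
    Indep q A' := by
  intro f hf hsum ν hν
  have := h (fun ν => if ν ∈ A' then f ν else 0) ?_ ?_ ν (hs hν)
  · simpa [hν] using this
  · intro μ hμ
    by_cases h' : μ ∈ A'
    · simpa [h'] using hf μ h'
    · simp [h']
  · rw [Finset.sum_ite_mem, Finset.inter_eq_right.2 hs]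
    exact hsum

theorem indep_erase {A : Finset (B →ₗ[ZMod 2] ZMod 2)} (h : Indep q A)
    {ν : B →ₗ[ZMod 2] ZMod 2} (hν : ν ∈ A) : ¬ Rel q ν (∑ κ ∈ A.erase ν, κ) := by
  rintro ⟨φ, h0, h1, z, hz⟩
  apply h0
  have := h (fun κ => if κ = ν then φ else act q κ z) ?_ ?_ ν hν
  · simpa using this
  · intro κ hκ
    by_cases h' : κ = ν
    · subst h'; simpa using h1
    · simp only [h', if_false]; exact ⟨z, rfl⟩
  · rw [← Finset.add_sum_erase A _ hν]
    have : ∑ κ ∈ A.erase ν, (if κ = ν then φ else act q κ z) = φ := by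
      rw [← hz, act_sum]
      apply Finset.sum_congr rfl
      intro κ hκ
      rw [if_neg (Finset.ne_of_mem_erase hκ)]
    simp only [if_true]
    rw [this, ZModModule.add_self]

theorem glue [Module.Finite (ZMod 2) V] (hq : IsLinked q e)
    {A : Finset (B →ₗ[ZMod 2] ZMod 2)} (h : Indep q A)
    (y : (B →ₗ[ZMod 2] ZMod 2) → V) : ∃ w, ∀ ν ∈ A, y ν + w ∈ N q ν := by
  induction A using Finset.induction_on with
  | empty => exact ⟨0, by simp⟩
  | insert ν A hν ih =>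
    obtain ⟨w', hw'⟩ := ih (h.mono (Finset.subset_insert _ _))
    have h1 := indep_erase h (Finset.mem_insert_self ν A)
    rw [Finset.erase_insert hν] at h1
    obtain ⟨w, hw1, hw2⟩ := glue2 hq h1 (y ν) w'
    refine ⟨w, ?_⟩
    intro κ hκ
    rcases Finset.mem_insert.1 hκ with rfl | hκ
    · exact hw1
    · have h2 := indep_N (h.mono (Finset.subset_insert _ _)) hw2 hκ
      have h3 := Submodule.add_mem _ (hw' κ hκ) h2
      have h4 : y κ + w' + (w' + w) = y κ + w := by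
        rw [add_assoc, add_add_self]
      rwa [h4] at h3

/-- L9 -/
theorem atomic_mem [Module.Finite (ZMod 2) V] (hq : IsLinked q e) {x : V} (hx : Full q x)
    {A : Finset (B →ₗ[ZMod 2] ZMod 2)} (hA : PI q A) (h : Indep q A)
    {κ : B →ₗ[ZMod 2] ZMod 2} (hκ : Atomic q κ) (hle : N q (∑ ν ∈ A, ν) ≤ N q κ) : κ ∈ A := by
  by_contra hc
  have hex : ∀ ν : B →ₗ[ZMod 2] ZMod 2, ∃ w, ν ∈ A → (act q ν w = act q ν x ∧
      ∀ ν' ∈ A, ν' ≠ ν → act q ν' w = 0) := by
    intro ν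
    obtain ⟨w, hw⟩ := glue hq h (fun ν' => if ν' = ν then x else 0)
    refine ⟨w, fun hν => ⟨?_, ?_⟩⟩
    · have := hw ν hν
      simp only [if_true] at this
      exact (mem_N_add.1 this).symm
    · intro ν' hν' hne
      have := hw ν' hν'
      simp only [hne, if_false, zero_add] at this
      exact mem_N.1 this
  choose w hw using hex
  have h1 : ∀ ν ∈ A, act q (∑ ν ∈ A, ν) (w ν) = act q ν x := by
    intro ν hν
    rw [act_sum, ← Finset.add_sum_erase A _ hν, (hw ν hν).1]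
    have : ∑ κ ∈ A.erase ν, act q κ (w ν) = 0 := by
      apply Finset.sum_eq_zero
      intro κ' hκ'
      exact (hw ν hν).2 κ' (Finset.mem_of_mem_erase hκ') (Finset.ne_of_mem_erase hκ')
    rw [this, add_zero]
  have hR := (act_mem_iff hq hx).2 hle
  have h2 : ∀ ν ∈ A, act q κ (w ν) ∈ R q ν := fun ν hν => commute_aux hq hx hR (h1 ν hν)
  have h3 : x + ∑ ν ∈ A, w ν ∈ N q κ := by
    apply hle
    rw [mem_N, map_add, map_sum, Finset.sum_congr rfl h1, act_sum, ZModModule.add_self]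
  have h4 : act q κ x = ∑ ν ∈ A, act q κ (w ν) := by
    rw [mem_N_add.1 h3, map_sum]
  by_cases h5 : ∀ ν ∈ A, act q κ (w ν) = 0
  · rw [Finset.sum_eq_zero h5] at h4
    exact hκ.1 (hx.act_eq_zero h4)
  · push Not at h5
    obtain ⟨ν₀, hν₀, h6⟩ := h5
    have h7 : Rel q κ ν₀ := ⟨_, h6, ⟨_, rfl⟩, h2 ν₀ hν₀⟩
    have h8 : ∀ ν ∈ A, ν ≠ ν₀ → act q κ (w ν) = 0 := by
      intro ν hν hne
      by_contra h9
      have h10 : Rel q κ ν := ⟨_, h9, ⟨_, rfl⟩, h2 ν hν⟩
      exact hA.2 ν hν ν₀ hν₀ hne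
        (rel_trans hq hx (hA.1 ν hν) hκ (hA.1 ν₀ hν₀) h10.symm h7)
    rw [Finset.sum_eq_single_of_mem ν₀ hν₀ h8] at h4
    have h11 : act q κ x ∈ R q ν₀ := by rw [h4]; exact h2 ν₀ hν₀
    have h12 := (hA.1 ν₀ hν₀).2 κ hκ.1 (le_of_act_mem hq hx h11)
    rw [h12] at hc
    exact hc hν₀

/-- L9' -/
theorem vanish_C [Module.Finite (ZMod 2) V] (hq : IsLinked q e) {x : V} (hx : Full q x)
    {A : Finset (B →ₗ[ZMod 2] ZMod 2)} (hA : PI q A) (h : Indep q A) {β : B}
    (hβ : ∀ ν ∈ A, ν β = 0) : ∀ (n : ℕ) (κ : B →ₗ[ZMod 2] ZMod 2),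
      Module.finrank (ZMod 2) V ≤ n + Module.finrank (ZMod 2) (N q κ) →
      N q (∑ ν ∈ A, ν) ≤ N q κ → κ β = 0 := by
  intro n
  induction n with
  | zero =>
    intro κ hn hle
    have h1 : N q κ = ⊤ := by
      apply Submodule.eq_top_of_finrank_eq
      have := Submodule.finrank_le (N q κ)
      omega
    have h2 : κ = 0 := by
      apply hx.act_eq_zero
      rw [← mem_N, h1]; trivial
    simp [h2]
  | succ n ih =>
    intro κ hn hle
    by_cases h0 : κ = 0
    · simp [h0]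
    obtain ⟨κ', h1, h2⟩ := exists_atomic hq hx h0
    have h3 := atomic_mem hq hx hA h h1 (hle.trans h2)
    by_cases h4 : κ' = κ
    · rw [← h4]; exact hβ κ' h3
    · have h5 := split_below hq hx h2 h1.1 h4
      have h6 := Submodule.finrank_lt_finrank_of_lt h5.2.2
      have h7 := ih (κ + κ') (by omega) (hle.trans h5.2.2.le)
      rw [LinearMap.add_apply, hβ κ' h3, add_zero] at h7
      exact h7

theorem slot_family [Module.Finite (ZMod 2) V] (hq : IsLinked q e) {x : V} (hx : Full q x)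
    {A : Finset (B →ₗ[ZMod 2] ZMod 2)} (hA : PI q A) (h : Indep q A) {β : B}
    (hβ : ∀ ν ∈ A, ν β = 0) : ∃ y, (∀ ν ∈ A, y ∈ N q ν) ∧ q x y = β := by
  obtain ⟨y, hy, hy2⟩ := slot_in_N hq hx (μ := ∑ ν ∈ A, ν) (β := β)
    (fun κ hκ => vanish_C hq hx hA h hβ (Module.finrank (ZMod 2) V) κ (by omega) hκ)
  exact ⟨y, fun ν hν => indep_N h hy hν, hy2⟩

theorem indep_pair {ν₁ ν₂ : B →ₗ[ZMod 2] ZMod 2} (hne : ν₁ ≠ ν₂) (h : ¬ Rel q ν₁ ν₂) :
    Indep q {ν₁, ν₂} := by
  intro f hf hsum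
  rw [Finset.sum_pair hne] at hsum
  have h1 := eq_of_add_eq_zero' hsum
  have h2 : f ν₁ = 0 := by
    by_contra h0
    exact h ⟨f ν₁, h0, hf ν₁ (by simp), by rw [h1]; exact hf ν₂ (by simp)⟩
  intro ν hν
  simp only [Finset.mem_insert, Finset.mem_singleton] at hν
  rcases hν with rfl | rfl
  · exact h2
  · rw [← h1]; exact h2

/-- L10 -/
theorem pi_indep [Module.Finite (ZMod 2) V] (hq : IsLinked q e) {x : V} (hx : Full q x)
    (A : Finset (B →ₗ[ZMod 2] ZMod 2)) : PI q A → Indep q A := by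
  induction A using Finset.strongInduction with
  | H A ih =>
    intro hA f hf hsum
    have ih' : ∀ A' ⊂ A, Indep q A' := fun A' h' => ih A' h' (hA.mono h'.subset)
    by_contra hc
    push Not at hc
    obtain ⟨ν₁, hν₁, hfν₁⟩ := hc
    have hall : ∀ ν ∈ A, f ν ≠ 0 := by
      intro ν hν h0
      have hne : ν₁ ≠ ν := by rintro rfl; exact hfν₁ h0
      have hs : ∑ κ ∈ A.erase ν, f κ = 0 := by
        rw [← Finset.add_sum_erase A _ hν, h0, zero_add] at hsum
        exact hsum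
      exact hfν₁ (ih' (A.erase ν) (Finset.erase_ssubset hν) f
        (fun κ hκ => hf κ (Finset.mem_of_mem_erase hκ)) hs ν₁
        (Finset.mem_erase.2 ⟨hne, hν₁⟩))
    -- choose preimages
    have hz : ∀ ν : B →ₗ[ZMod 2] ZMod 2, ∃ z, ν ∈ A → act q ν z = f ν := by
      intro ν
      by_cases hν : ν ∈ A
      · obtain ⟨z, hz⟩ := hf ν hν
        exact ⟨z, fun _ => hz⟩
      · exact ⟨0, fun h => absurd h hν⟩
    choose z hz using hz
    have hglue : ∀ A' ⊂ A, ∃ w, ∀ ν ∈ A', act q ν w = f ν := by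
      intro A' hA'
      obtain ⟨w, hw⟩ := glue hq (ih' A' hA') z
      exact ⟨w, fun ν hν => by rw [← mem_N_add.1 (hw ν hν), hz ν (hA'.subset hν)]⟩
    have hL7 : ∀ μ ∈ A, f μ x = 1 ∧ ∃ n, act q μ n = f μ ∧ f μ n = 0 := by
      intro μ hμ
      have hss := Finset.erase_ssubset hμ
      obtain ⟨w, hw⟩ := hglue _ hss
      have h1 : act q (∑ κ ∈ A.erase μ, κ) w = f μ := by
        rw [act_sum, Finset.sum_congr rfl hw]
        rw [← Finset.add_sum_erase A _ hμ] at hsum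
        exact (eq_of_add_eq_zero' hsum).symm
      have h2 : f μ ∈ R q (∑ κ ∈ A.erase μ, κ) := ⟨w, h1⟩
      have h3 : ¬ N q (∑ κ ∈ A.erase μ, κ) ≤ N q μ := by
        intro hle
        have := atomic_mem hq hx (hA.mono hss.subset) (ih' _ hss) (hA.1 μ hμ) hle
        simp at this
      refine ⟨tri_one hq (hA.1 μ hμ) h3 (hall μ hμ) (hf μ hμ) h2 hx, ?_⟩
      obtain ⟨n, hn, hn2⟩ := tri_ex hq (hA.1 μ hμ) h3 (hall μ hμ) (hf μ hμ) h2 hx
      exact ⟨n, hn2, R_vanish hq h2 hn⟩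
    -- second element
    obtain ⟨ν₂, hν₂⟩ : (A.erase ν₁).Nonempty := by
      rw [Finset.nonempty_iff_ne_empty]
      intro h0
      rw [← Finset.add_sum_erase A _ hν₁, h0, Finset.sum_empty, add_zero] at hsum
      exact hfν₁ hsum
    have hne : ν₂ ≠ ν₁ := Finset.ne_of_mem_erase hν₂
    have hν₂A : ν₂ ∈ A := Finset.mem_of_mem_erase hν₂
    have hrel : ¬ Rel q ν₁ ν₂ := hA.2 ν₁ hν₁ ν₂ hν₂A (Ne.symm hne)
    have hpair : Indep q {ν₁, ν₂} := indep_pair (Ne.symm hne) hrel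
    have hpairPI : PI q {ν₁, ν₂} := hA.mono (by
      intro κ hκ
      simp only [Finset.mem_insert, Finset.mem_singleton] at hκ
      rcases hκ with rfl | rfl
      · exact hν₁
      · exact hν₂A)
    have hν₁' : ν₁ ∈ A.erase ν₂ := Finset.mem_erase.2 ⟨Ne.symm hne, hν₁⟩
    have hss2 : A.erase ν₂ ⊂ A := Finset.erase_ssubset hν₂A
    have hss' : (A.erase ν₂).erase ν₁ ⊂ A :=
      lt_of_le_of_lt (Finset.erase_subset _ _) hss2
    have hsum' : ∑ κ ∈ (A.erase ν₂).erase ν₁, f κ = f ν₁ + f ν₂ := by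
      rw [← Finset.add_sum_erase A _ hν₂A, ← Finset.add_sum_erase _ _ hν₁'] at hsum
      have h1 := eq_of_add_eq_zero' hsum
      rw [h1, add_add_self]
    -- representation of β
    have key : ∀ β : B, ν₁ β = 1 → ν₂ β = 1 →
        ∃ y, act q ν₁ y = f ν₁ ∧ act q ν₂ y = f ν₂ ∧ q x y = β := by
      intro β hb1 hb2
      obtain ⟨y₀, hy1, hy2⟩ := glue2 hq hrel (z ν₁) (z ν₂)
      have hy1' : act q ν₁ y₀ = f ν₁ := by rw [← mem_N_add.1 hy1, hz ν₁ hν₁]
      have hy2' : act q ν₂ y₀ = f ν₂ := by rw [← mem_N_add.1 hy2, hz ν₂ hν₂A]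
      obtain ⟨m, hm, hm2⟩ := slot_family hq hx hpairPI hpair (β := β + q x y₀) (by
        intro κ hκ
        simp only [Finset.mem_insert, Finset.mem_singleton] at hκ
        rcases hκ with rfl | rfl
        · rw [map_add, hb1]
          have : κ (q x y₀) = f κ x := by
            rw [← hy1', act_apply, hq.symm]
          rw [this, (hL7 κ hν₁).1]; decide
        · rw [map_add, hb2]
          have : κ (q x y₀) = f κ x := by
            rw [← hy2', act_apply, hq.symm]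
          rw [this, (hL7 κ hν₂A).1]; decide)
      refine ⟨y₀ + m, ?_, ?_, ?_⟩
      · rw [map_add, hy1', mem_N.1 (hm ν₁ (by simp)), add_zero]
      · rw [map_add, hy2', mem_N.1 (hm ν₂ (by simp)), add_zero]
      · rw [map_add, hm2, add_comm β, add_add_self]
    -- y''
    obtain ⟨y', hy'⟩ := hglue _ hss'
    obtain ⟨n, hn, hn2⟩ : ∃ n ∈ N q (∑ κ ∈ (A.erase ν₂).erase ν₁, κ), f ν₁ n ≠ 0 := by
      by_contra hcc
      push Not at hcc
      exact indep_erase (ih' _ hss2) hν₁' ⟨f ν₁, hfν₁, hf ν₁ hν₁, mem_R_of_vanish hq hcc⟩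
    obtain ⟨y, hy, hy1⟩ : ∃ y, (∀ ν ∈ (A.erase ν₂).erase ν₁, act q ν y = f ν) ∧ f ν₁ y = 1 := by
      by_cases h1 : f ν₁ y' = 0
      · refine ⟨y' + n, ?_, ?_⟩
        · intro ν hν
          rw [map_add, hy' ν hν, mem_N.1 (indep_N (ih' _ hss') hn hν), add_zero]
        · rw [map_add, h1, zero_add, zm_ne_zero hn2]
      · exact ⟨y', hy', zm_ne_zero h1⟩
    have hφy : (f ν₁ + f ν₂) y = 0 := by
      rw [← hsum', LinearMap.sum_apply]
      apply Finset.sum_eq_zero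
      intro ν hν
      obtain ⟨_, m, hm1, hm2⟩ := hL7 ν (hss'.subset hν)
      rw [← hm1, act_symm hq, hy ν hν, hm2]
    have hy2 : f ν₂ y = 1 := by
      rw [LinearMap.add_apply, hy1] at hφy
      rcases zm (f ν₂ y) with h | h
      · rw [h] at hφy; exact absurd hφy (by decide)
      · exact h
    obtain ⟨n₂, hn₂1, hn₂2⟩ := (hL7 ν₂ hν₂A).2
    obtain ⟨n₁, hn₁1, hn₁2⟩ := (hL7 ν₁ hν₁).2
    have hw2 : act q ν₂ y n₂ = 1 := by rw [act_symm hq, hn₂1, hy2]
    obtain ⟨v₁, hv₁, hv₁'⟩ : ∃ v₁, f ν₁ v₁ = 1 ∧ act q ν₁ y v₁ = 1 := by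
      rcases zm (act q ν₁ y x) with h | h
      · refine ⟨x + n₁, ?_, ?_⟩
        · rw [map_add, (hL7 ν₁ hν₁).1, hn₁2]; decide
        · rw [map_add, h, act_symm hq _ y n₁, hn₁1, hy1]; decide
      · exact ⟨x, (hL7 ν₁ hν₁).1, h⟩
    obtain ⟨v, hva, hvb⟩ := glue2 hq hrel v₁ n₂
    have hv1 : f ν₁ v = 1 := by
      have := R_vanish hq (hf ν₁ hν₁) hva
      rw [map_add] at this
      rw [← eq_of_add_eq_zero' this, hv₁]
    have hv2 : f ν₂ v = 0 := by
      have := R_vanish hq (hf ν₂ hν₂A) hvb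
      rw [map_add] at this
      rw [← eq_of_add_eq_zero' this, hn₂2]
    have hv3 : ν₁ (q y v) = 1 := by
      rw [← act_apply, act_symm hq, ← mem_N_add.1 hva, act_symm hq, hv₁']
    have hv4 : ν₂ (q y v) = 1 := by
      rw [← act_apply, act_symm hq, ← mem_N_add.1 hvb, act_symm hq, hw2]
    obtain ⟨u, hu1, hu2, hu3⟩ := key _ hv3 hv4
    have hu4 : act q (ν₁ + ν₂) u = f ν₁ + f ν₂ := by
      rw [act_add, LinearMap.add_apply, hu1, hu2]
    have hu5 : act q (∑ κ ∈ (A.erase ν₂).erase ν₁, κ) y = f ν₁ + f ν₂ := by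
      rw [act_sum, Finset.sum_congr rfl hy, hsum']
    have hu6 := consist hq hu4 hu5 (v := x) (v' := v) (by rw [hq.symm, hu3])
    rw [LinearMap.add_apply, LinearMap.add_apply, (hL7 ν₁ hν₁).1, (hL7 ν₂ hν₂A).1, hv1, hv2] at hu6
    exact absurd hu6 (by decide)

/-- normal form -/
theorem normal_form [Module.Finite (ZMod 2) V] (hq : IsLinked q e) {x : V} (hx : Full q x) :
    ∀ (n : ℕ) (lam : B →ₗ[ZMod 2] ZMod 2),
      Module.finrank (ZMod 2) V ≤ n + Module.finrank (ZMod 2) (N q lam) →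
      ∃ A, PI q A ∧ ∑ ν ∈ A, ν = lam := by
  intro n
  induction n with
  | zero =>
    intro lam hn
    have h1 : N q lam = ⊤ := by
      apply Submodule.eq_top_of_finrank_eq
      have := Submodule.finrank_le (N q lam)
      omega
    have h2 : lam = 0 := by
      apply hx.act_eq_zero
      rw [← mem_N, h1]; trivial
    exact ⟨∅, ⟨by simp, by simp⟩, by simp [h2]⟩
  | succ n ih =>
    intro lam hn
    by_cases h0 : lam = 0
    · exact ⟨∅, ⟨by simp, by simp⟩, by simp [h0]⟩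
    obtain ⟨κ, h1, h2⟩ := exists_atomic hq hx h0
    by_cases h4 : κ = lam
    · refine ⟨{lam}, ⟨?_, ?_⟩, by simp⟩
      · intro ν hν
        rw [Finset.mem_singleton.1 hν, ← h4]; exact h1
      · intro μ hμ ν hν hne
        rw [Finset.mem_singleton.1 hμ, Finset.mem_singleton.1 hν] at hne
        exact absurd rfl hne
    · obtain ⟨⟨z, hz1, hz2⟩, h5, h6⟩ := split_below hq hx h2 h1.1 h4
      have h7 := Submodule.finrank_lt_finrank_of_lt h6
      obtain ⟨A, hA, hA2⟩ := ih (lam + κ) (by omega)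
      have hI := pi_indep hq hx A hA
      have hzA : ∀ ν ∈ A, z ∈ N q ν := by
        intro ν hν
        apply indep_N hI _ hν
        rw [hA2]; exact hz1
      have hκA : κ ∉ A := by
        intro hmem
        have h8 := Submodule.add_mem _ hz2 (hzA κ hmem)
        rw [add_assoc, ZModModule.add_self, add_zero] at h8
        exact h1.1 (hx.act_eq_zero (mem_N.1 h8))
      have hrel : ∀ ν ∈ A, ¬ Rel q κ ν := by
        rintro ν hν ⟨φ, a1, a2, a3⟩
        have hne : κ ≠ ν := by rintro rfl; exact hκA hν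
        have b1 := tri_one hq h1 (not_le h1 (hA.1 ν hν) hne) a1 a2 a3 hx
        have b2 := R_vanish hq a3 (hzA ν hν)
        have b3 := R_vanish hq a2 hz2
        rw [map_add, b1, b2] at b3
        exact absurd b3 (by decide)
      refine ⟨insert κ A, ⟨?_, ?_⟩, ?_⟩
      · intro ν hν
        rcases Finset.mem_insert.1 hν with rfl | hν
        · exact h1
        · exact hA.1 ν hν
      · intro μ hμ ν hν hne
        rcases Finset.mem_insert.1 hμ with rfl | hμ' <;>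
          rcases Finset.mem_insert.1 hν with rfl | hν'
        · exact absurd rfl hne
        · exact hrel ν hν'
        · exact fun h => hrel μ hμ' h.symm
        · exact hA.2 μ hμ' ν hν' hne
      · rw [Finset.sum_insert hκA, hA2, add_comm lam, add_add_self]

theorem exists_nf [Module.Finite (ZMod 2) V] (hq : IsLinked q e) {x : V} (hx : Full q x)
    (lam : B →ₗ[ZMod 2] ZMod 2) : ∃ A, PI q A ∧ ∑ ν ∈ A, ν = lam :=
  normal_form hq hx (Module.finrank (ZMod 2) V) lam (by omega)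

/-- L11 -/
theorem add_atomic [Module.Finite (ZMod 2) V] (hq : IsLinked q e) {x : V} (hx : Full q x)
    {μ ν : B →ₗ[ZMod 2] ZMod 2} (hμ : Atomic q μ) (hν : Atomic q ν) (hne : μ ≠ ν)
    {φ : V →ₗ[ZMod 2] ZMod 2} (h0 : φ ≠ 0) (h1 : φ ∈ R q μ) (h2 : φ ∈ R q ν) :
    Atomic q (μ + ν) ∧ φ ∈ R q (μ + ν) := by
  obtain ⟨A, hA, hA2⟩ := exists_nf hq hx (μ + ν)
  have hI := pi_indep hq hx A hA
  obtain ⟨n, hn, hn2⟩ := tri_ex hq hμ (not_le hμ hν hne) h0 h1 h2 hx
  obtain ⟨n', hn', hn2'⟩ := tri_ex hq hν (not_le hν hμ (Ne.symm hne)) h0 h2 h1 hx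
  have hz1 : act q μ (n + n') = φ := by rw [map_add, hn2, mem_N.1 hn', add_zero]
  have hz2 : act q ν (n + n') = φ := by rw [map_add, hn2', mem_N.1 hn, zero_add]
  have hz3 : n + n' ∈ N q (μ + ν) := by
    rw [mem_N, act_add, LinearMap.add_apply, hz1, hz2, ZModModule.add_self]
  obtain ⟨κ, hκ, hκμ⟩ : ∃ κ ∈ A, Rel q μ κ := by
    by_contra hc
    push Not at hc
    have hμA : μ ∉ A := fun h => hc μ h (rel_refl hx hμ.1)
    have hPI : PI q (insert μ A) := by
      refine ⟨?_, ?_⟩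
      · intro κ hκ
        rcases Finset.mem_insert.1 hκ with rfl | hκ
        · exact hμ
        · exact hA.1 κ hκ
      · intro κ hκ κ' hκ' hne'
        rcases Finset.mem_insert.1 hκ with rfl | h3 <;>
          rcases Finset.mem_insert.1 hκ' with rfl | h4
        · exact absurd rfl hne'
        · exact hc κ' h4
        · exact fun h => hc κ h3 h.symm
        · exact hA.2 κ h3 κ' h4 hne'
    have hI2 := pi_indep hq hx _ hPI
    have hs : ∑ κ ∈ insert μ A, κ = ν := by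
      rw [Finset.sum_insert hμA, hA2, add_add_self]
    apply not_le hμ hν hne
    intro t ht
    apply indep_N hI2 _ (Finset.mem_insert_self μ A)
    rw [hs]; exact ht
  have hκa := hA.1 κ hκ
  have hle : N q (μ + ν) ≤ N q κ := by
    intro t ht
    apply indep_N hI _ hκ
    rw [hA2]; exact ht
  have hneμ : μ ≠ κ := by
    rintro rfl
    have := mem_N.1 (hle hz3)
    rw [hz1] at this; exact h0 this
  have hneν : ν ≠ κ := by
    rintro rfl
    have := mem_N.1 (hle hz3)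
    rw [hz2] at this; exact h0 this
  obtain ⟨φ', a1, a2, a3⟩ := hκμ
  have hφ : φ = φ' := phi_center hq hμ hν hκa hne hneμ h0 h1 h2 a1 a2 a3 hx
  subst hφ
  have hkey : N q μ ≤ N q (κ + ν) := by
    have haux : ∀ t ∈ N q μ, act q ν t = 0 → act q κ t = 0 := by
      intro t ht h3
      apply mem_N.1
      apply hle
      rw [mem_N, act_add, LinearMap.add_apply, mem_N.1 ht, h3, add_zero]
    intro t ht
    rw [mem_N, act_add, LinearMap.add_apply]
    rcases tri_N hq hν (not_le hν hμ (Ne.symm hne)) h0 h2 h1 hx ht with h3 | h3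
    · rw [haux t ht h3, h3, add_zero]
    · rcases tri_N hq hκa (not_le hκa hμ (Ne.symm hneμ)) h0 a3 h1 hx ht with h4 | h4
      · exfalso
        obtain ⟨t', ht', ht2'⟩ := tri_ex hq hκa (not_le hκa hμ (Ne.symm hneμ)) h0 a3 h1 hx
        rcases tri_N hq hν (not_le hν hμ (Ne.symm hne)) h0 h2 h1 hx ht' with h5 | h5
        · rw [haux t' ht' h5] at ht2'; exact h0 ht2'.symm
        · have h6 := haux (t + t') (Submodule.add_mem _ ht ht')
            (by rw [map_add, h3, h5, ZModModule.add_self])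
          rw [map_add, h4, zero_add, ht2'] at h6
          exact h0 h6
      · rw [h3, h4, ZModModule.add_self]
  have h7 : κ + ν = μ := hμ.2 _ (fun h => hneν (eq_of_add_eq_zero' h).symm) hkey
  have h8 : κ = μ + ν := by rw [← h7, add_cancel_two]
  rw [← h8]
  exact ⟨hκa, a3⟩

end

end CommonSlot
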