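import Pool.Agent.Lib_MP_d26ff6_al.Lin3

namespace CommonSlot

open scoped Classical in
section

variable {V B : Type} [AddCommGroup V] [Module (ZMod 2) V] [AddCommGroup B] [Module (ZMod 2) B]
variable {q : V →ₗ[ZMod 2] V →ₗ[ZMod 2] B} {e : V} [Module.Finite (ZMod 2) V]

theorem class_add (hq : IsLinked q e) {x : V} (hx : Full q x)
    {κ κ' : B →ₗ[ZMod 2] ZMod 2} (hκ : Atomic q κ) (hκ' : Atomic q κ') (hr : Rel q κ κ')
    {θ θ' : V →ₗ[ZMod 2] ZMod 2} (hθ : θ ∈ R q κ) (hθ' : θ' ∈ R q κ') :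
    ∃ κ₁, Atomic q κ₁ ∧ Rel q κ₁ κ ∧ θ + θ' ∈ R q κ₁ := by
  by_cases hne : κ = κ'
  · subst hne
    exact ⟨κ, hκ, rel_refl hx hκ.1, Submodule.add_mem _ hθ hθ'⟩
  have hr0 := hr
  obtain ⟨φ, h0, h1, h2⟩ := hr
  obtain ⟨y, rfl⟩ := hθ
  obtain ⟨y', rfl⟩ := hθ'
  by_cases h3 : φ y = φ y'
  · have h4 : φ (y + y') = 0 := by rw [map_add, h3, ZModModule.add_self]
    obtain ⟨m, hm, m', hm', h5⟩ := phi_zero hq hκ (not_le hκ hκ' hne) h0 h1 h2 hx h4
    have h6 : act q κ (y + m) = act q κ y := by rw [map_add, mem_N.1 hm, add_zero]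
    have h7 : act q κ' (y + m) = act q κ' y' := by
      have : y + m = y' + m' := by
        apply eq_of_add_eq_zero'
        calc y + m + (y' + m') = (y + y') + (m + m') := by abel
          _ = 0 := by rw [h5, ZModModule.add_self]
      rw [this, map_add, mem_N.1 hm', add_zero]
    have h8 := add_atomic hq hx hκ hκ' hne h0 h1 h2
    refine ⟨κ + κ', h8.1, ⟨φ, h0, h8.2, h1⟩, y + m, ?_⟩
    rw [act_add, LinearMap.add_apply, h6, h7]
  · rcases zm (φ y) with h4 | h4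
    · refine ⟨κ', hκ', hr0.symm, Submodule.add_mem _ ?_ ⟨y', rfl⟩⟩
      rcases phi_zero_act hq hκ (not_le hκ hκ' hne) h0 h1 h2 hx h4 with h5 | h5
      · rw [h5]; exact Submodule.zero_mem _
      · rw [h5]; exact h2
    · have h6 : φ y' = 0 := by
        rw [h4] at h3
        exact zm_ne_one (fun h => h3 h.symm)
      refine ⟨κ, hκ, rel_refl hx hκ.1, Submodule.add_mem _ ⟨y, rfl⟩ ?_⟩
      rcases phi_zero_act hq hκ' (not_le hκ' hκ (Ne.symm hne)) h0 h2 h1 hx h6 with h5 | h5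
      · rw [h5]; exact Submodule.zero_mem _
      · rw [h5]; exact h1

/-- representable by inequivalent atomics away from the class of `μ₀` -/
def Rep (q : V →ₗ[ZMod 2] V →ₗ[ZMod 2] B) (μ₀ : B →ₗ[ZMod 2] ZMod 2)
    (θ : V →ₗ[ZMod 2] ZMod 2) : Prop :=
  ∃ (A : Finset (B →ₗ[ZMod 2] ZMod 2)) (f : (B →ₗ[ZMod 2] ZMod 2) → (V →ₗ[ZMod 2] ZMod 2)),
    PI q A ∧ (∀ κ ∈ A, ¬ Rel q κ μ₀) ∧ (∀ κ ∈ A, f κ ∈ R q κ) ∧ ∑ κ ∈ A, f κ = θ

omit [Module.Finite (ZMod 2) V] in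
theorem insert_PI {κ : B →ₗ[ZMod 2] ZMod 2} (hκ : Atomic q κ)
    {A : Finset (B →ₗ[ZMod 2] ZMod 2)} (hA : PI q A) (h : ∀ ν ∈ A, ¬ Rel q κ ν) :
    PI q (insert κ A) := by
  refine ⟨?_, ?_⟩
  · intro ν hν
    rcases Finset.mem_insert.1 hν with rfl | hν
    · exact hκ
    · exact hA.1 ν hν
  · intro μ hμ ν hν hne
    rcases Finset.mem_insert.1 hμ with rfl | hμ' <;>
      rcases Finset.mem_insert.1 hν with rfl | hν'
    · exact absurd rfl hne
    · exact h ν hν'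
    · exact fun h' => h μ hμ' h'.symm
    · exact hA.2 μ hμ' ν hν' hne

theorem rep_add (hq : IsLinked q e) {x : V} (hx : Full q x)
    {μ₀ : B →ₗ[ZMod 2] ZMod 2} (hμ₀ : Atomic q μ₀) {θ θ' : V →ₗ[ZMod 2] ZMod 2}
    (hθ : Rep q μ₀ θ) {κ' : B →ₗ[ZMod 2] ZMod 2} (hκ' : Atomic q κ') (hr' : ¬ Rel q κ' μ₀)
    (hθ' : θ' ∈ R q κ') : Rep q μ₀ (θ + θ') := by
  obtain ⟨A, f, hA, h1, h2, h3⟩ := hθ
  by_cases hc : ∀ κ ∈ A, ¬ Rel q κ' κ
  · have hmem : κ' ∉ A := fun h => hc κ' h (rel_refl hx hκ'.1)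
    refine ⟨insert κ' A, fun κ => if κ = κ' then θ' else f κ, insert_PI hκ' hA hc, ?_, ?_, ?_⟩
    · intro κ hκ
      rcases Finset.mem_insert.1 hκ with rfl | hκ
      · exact hr'
      · exact h1 κ hκ
    · intro κ hκ
      rcases Finset.mem_insert.1 hκ with rfl | h4
      · simpa using hθ'
      · by_cases h5 : κ = κ'
        · subst h5; simpa using hθ'
        · simpa [h5] using h2 κ h4
    · rw [Finset.sum_insert hmem]
      have : ∑ κ ∈ A, (if κ = κ' then θ' else f κ) = θ := by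
        rw [← h3]
        apply Finset.sum_congr rfl
        intro κ hκ
        rw [if_neg (fun h => hmem (by rwa [h] at hκ))]
      simp only [if_true]
      rw [this, add_comm]
  · push Not at hc
    obtain ⟨κ₀, hκ₀, hr⟩ := hc
    obtain ⟨κ₁, a1, a2, a3⟩ := class_add hq hx (hA.1 κ₀ hκ₀) hκ' hr.symm (h2 κ₀ hκ₀) hθ'
    have hE : PI q (A.erase κ₀) := hA.mono (Finset.erase_subset _ _)
    have hn : ∀ κ ∈ A.erase κ₀, ¬ Rel q κ₁ κ := by
      intro κ hκ h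
      have hκA := Finset.mem_of_mem_erase hκ
      exact hA.2 κ₀ hκ₀ κ hκA (Ne.symm (Finset.ne_of_mem_erase hκ))
        (rel_trans hq hx (hA.1 κ₀ hκ₀) a1 (hA.1 κ hκA) a2.symm h)
    have hmem : κ₁ ∉ A.erase κ₀ := fun h => hn κ₁ h (rel_refl hx a1.1)
    refine ⟨insert κ₁ (A.erase κ₀), fun κ => if κ = κ₁ then f κ₀ + θ' else f κ,
      insert_PI a1 hE hn, ?_, ?_, ?_⟩
    · intro κ hκ
      rcases Finset.mem_insert.1 hκ with rfl | hκ
      · intro h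
        exact h1 κ₀ hκ₀ (rel_trans hq hx (hA.1 κ₀ hκ₀) a1 hμ₀ a2.symm h)
      · exact h1 κ (Finset.mem_of_mem_erase hκ)
    · intro κ hκ
      rcases Finset.mem_insert.1 hκ with rfl | h4
      · simpa using a3
      · by_cases h5 : κ = κ₁
        · subst h5; simpa using a3
        · simpa [h5] using h2 κ (Finset.mem_of_mem_erase h4)
    · rw [Finset.sum_insert hmem]
      have : ∑ κ ∈ A.erase κ₀, (if κ = κ₁ then f κ₀ + θ' else f κ) = ∑ κ ∈ A.erase κ₀, f κ := by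
        apply Finset.sum_congr rfl
        intro κ hκ
        rw [if_neg (fun h => hmem (by rwa [h] at hκ))]
      simp only [if_true]
      rw [this, ← h3, ← Finset.add_sum_erase A _ hκ₀]
      abel

/-- the class part -/
def clX (q : V →ₗ[ZMod 2] V →ₗ[ZMod 2] B) (μ₀ : B →ₗ[ZMod 2] ZMod 2) :
    Set (V →ₗ[ZMod 2] ZMod 2) := {θ | ∃ κ, Atomic q κ ∧ Rel q κ μ₀ ∧ θ ∈ R q κ}

/-- the complementary part -/
def clY (q : V →ₗ[ZMod 2] V →ₗ[ZMod 2] B) (μ₀ : B →ₗ[ZMod 2] ZMod 2) :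
    Set (V →ₗ[ZMod 2] ZMod 2) := {θ | ∃ κ, Atomic q κ ∧ ¬ Rel q κ μ₀ ∧ θ ∈ R q κ}

theorem mem_spanX (hq : IsLinked q e) {x : V} (hx : Full q x)
    {μ₀ : B →ₗ[ZMod 2] ZMod 2} (hμ₀ : Atomic q μ₀) {θ : V →ₗ[ZMod 2] ZMod 2}
    (h : θ ∈ Submodule.span (ZMod 2) (clX q μ₀)) : θ ∈ clX q μ₀ := by
  have hzero : (0 : V →ₗ[ZMod 2] ZMod 2) ∈ clX q μ₀ :=
    ⟨μ₀, hμ₀, rel_refl hx hμ₀.1, Submodule.zero_mem _⟩
  induction h using Submodule.span_induction with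
  | mem θ h => exact h
  | zero => exact hzero
  | add θ θ' _ _ h1 h2 =>
    obtain ⟨κ, a1, a2, a3⟩ := h1
    obtain ⟨κ', b1, b2, b3⟩ := h2
    obtain ⟨κ₁, c1, c2, c3⟩ := class_add hq hx a1 b1 (rel_trans hq hx a1 hμ₀ b1 a2 b2.symm) a3 b3
    exact ⟨κ₁, c1, rel_trans hq hx c1 a1 hμ₀ c2 a2, c3⟩
  | smul c θ _ h1 =>
    rcases zm c with rfl | rfl
    · rw [zero_smul]; exact hzero
    · rw [one_smul]; exact h1

theorem mem_spanY (hq : IsLinked q e) {x : V} (hx : Full q x)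
    {μ₀ : B →ₗ[ZMod 2] ZMod 2} (hμ₀ : Atomic q μ₀) {θ : V →ₗ[ZMod 2] ZMod 2}
    (h : θ ∈ Submodule.span (ZMod 2) (clY q μ₀)) : Rep q μ₀ θ := by
  have hzero : Rep q μ₀ (0 : V →ₗ[ZMod 2] ZMod 2) :=
    ⟨∅, fun _ => 0, ⟨by simp, by simp⟩, by simp, by simp, by simp⟩
  have key : ∀ θ₂, Rep q μ₀ θ₂ → Rep q μ₀ (θ₂ + θ) := by
    induction h using Submodule.span_induction with
    | mem θ h =>
      obtain ⟨κ, a1, a2, a3⟩ := h
      intro θ₂ h2
      exact rep_add hq hx hμ₀ h2 a1 a2 a3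
    | zero => intro θ₂ h2; rwa [add_zero]
    | add θ θ' _ _ h1 h2 =>
      intro θ₂ h3
      rw [← add_assoc]
      exact h2 _ (h1 _ h3)
    | smul c θ _ h1 =>
      intro θ₂ h3
      rcases zm c with rfl | rfl
      · rwa [zero_smul, add_zero]
      · rw [one_smul]; exact h1 _ h3
  have := key 0 hzero
  rwa [zero_add] at this

theorem disj_XY (hq : IsLinked q e) {x : V} (hx : Full q x)
    {μ₀ : B →ₗ[ZMod 2] ZMod 2} (hμ₀ : Atomic q μ₀) {θ : V →ₗ[ZMod 2] ZMod 2}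
    (h1 : θ ∈ Submodule.span (ZMod 2) (clX q μ₀))
    (h2 : θ ∈ Submodule.span (ZMod 2) (clY q μ₀)) : θ = 0 := by
  obtain ⟨κ, a1, a2, a3⟩ := mem_spanX hq hx hμ₀ h1
  obtain ⟨A, f, hA, b1, b2, b3⟩ := mem_spanY hq hx hμ₀ h2
  have hn : ∀ ν ∈ A, ¬ Rel q κ ν := by
    intro ν hν h
    exact b1 ν hν (rel_trans hq hx (hA.1 ν hν) a1 hμ₀ h.symm a2)
  have hmem : κ ∉ A := fun h => hn κ h (rel_refl hx a1.1)
  have hI := pi_indep hq hx _ (insert_PI a1 hA hn)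
  have := hI (fun ν => if ν = κ then θ else f ν) ?_ ?_ κ (Finset.mem_insert_self _ _)
  · simpa using this
  · intro ν hν
    rcases Finset.mem_insert.1 hν with rfl | h4
    · simpa using a3
    · by_cases h5 : ν = κ
      · subst h5; simpa using a3
      · simpa [h5] using b2 ν h4
  · rw [Finset.sum_insert hmem]
    have : ∑ ν ∈ A, (if ν = κ then θ else f ν) = θ := by
      rw [← b3]
      apply Finset.sum_congr rfl
      intro ν hν
      rw [if_neg (fun h => hmem (by rwa [h] at hν))]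
    simp only [if_true]
    rw [this, ZModModule.add_self]

theorem mem_span_of_vanish (S : Set (V →ₗ[ZMod 2] ZMod 2)) {θ : V →ₗ[ZMod 2] ZMod 2}
    (h : ∀ v, (∀ θ' ∈ S, θ' v = 0) → θ v = 0) : θ ∈ Submodule.span (ZMod 2) S := by
  by_contra hc
  obtain ⟨F, hF, hF2⟩ := exists_functional hc
  obtain ⟨v, rfl⟩ := (Module.evalEquiv (ZMod 2) V).surjective F
  apply hF
  exact h v (fun θ' hθ' => hF2 θ' (Submodule.subset_span hθ'))

/-- `v` with `κ v = 0` for all `κ` in a set of forms -/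
def annV (q : V →ₗ[ZMod 2] V →ₗ[ZMod 2] B) (P : Set (B →ₗ[ZMod 2] ZMod 2)) :
    Submodule (ZMod 2) V where
  carrier := {v | ∀ κ ∈ P, act q κ v = 0}
  add_mem' := by
    intro a b ha hb κ hκ
    rw [map_add, ha κ hκ, hb κ hκ, add_zero]
  zero_mem' := by intro κ _; rw [map_zero]
  smul_mem' := by
    intro c a ha κ hκ
    rw [map_smul, ha κ hκ, smul_zero]

/-- annihilator in `B` -/
def annB (P : Set (B →ₗ[ZMod 2] ZMod 2)) : Submodule (ZMod 2) B where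
  carrier := {β | ∀ κ ∈ P, κ β = 0}
  add_mem' := by
    intro a b ha hb κ hκ
    rw [map_add, ha κ hκ, hb κ hκ, add_zero]
  zero_mem' := by intro κ _; rw [map_zero]
  smul_mem' := by
    intro c a ha κ hκ
    rw [map_smul, ha κ hκ, smul_zero]

/-- decomposition data -/
def Decomp (q : V →ₗ[ZMod 2] V →ₗ[ZMod 2] B) : Prop :=
  ∃ (V₁ V₂ : Submodule (ZMod 2) V) (B₁ B₂ : Submodule (ZMod 2) B),
    IsCompl V₁ V₂ ∧ IsCompl B₁ B₂ ∧ (∀ v ∈ V₁, ∀ w, q v w ∈ B₁) ∧ (∀ v ∈ V₂, ∀ w, q v w ∈ B₂) ∧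
    V₁ ≠ ⊤ ∧ V₂ ≠ ⊤

theorem all_zero (hq : IsLinked q e) {x : V} (hx : Full q x) {β : B}
    (h : ∀ κ : B →ₗ[ZMod 2] ZMod 2, Atomic q κ → κ β = 0) : β = 0 := by
  by_contra hβ
  have h1 : β ∉ (⊥ : Submodule (ZMod 2) B) := by simpa using hβ
  obtain ⟨lam, h2, _⟩ := exists_functional h1
  obtain ⟨A, hA, rfl⟩ := exists_nf hq hx lam
  apply h2
  rw [LinearMap.sum_apply]
  exact Finset.sum_eq_zero (fun κ hκ => h κ (hA.1 κ hκ))

theorem decomp_of_not_rel (hq : IsLinked q e) {x : V} (hx : Full q x)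
    (hnd : ∀ a, (∀ b, q a b = 0) → a = 0)
    {μ₀ ν₀ : B →ₗ[ZMod 2] ZMod 2} (hμ₀ : Atomic q μ₀) (hν₀ : Atomic q ν₀)
    (hr : ¬ Rel q ν₀ μ₀) : Decomp q := by
  let P₁ : Set (B →ₗ[ZMod 2] ZMod 2) := {κ | Atomic q κ ∧ ¬ Rel q κ μ₀}
  let P₂ : Set (B →ₗ[ZMod 2] ZMod 2) := {κ | Atomic q κ ∧ Rel q κ μ₀}
  have hzero : ∀ v, v ∈ annV q P₁ → v ∈ annV q P₂ → v = 0 := by
    intro v h1 h2
    apply hnd
    intro b
    apply all_zero hq hx
    intro κ hκ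
    by_cases h3 : Rel q κ μ₀
    · exact LinearMap.congr_fun (h2 κ ⟨hκ, h3⟩) b
    · exact LinearMap.congr_fun (h1 κ ⟨hκ, h3⟩) b
  have hsup : ∀ v, v ∈ annV q P₁ ⊔ annV q P₂ := by
    intro v
    by_contra hc
    obtain ⟨θ, h1, h2⟩ := exists_functional hc
    apply h1
    have h3 : θ ∈ Submodule.span (ZMod 2) (clY q μ₀) := by
      apply mem_span_of_vanish
      intro w hw
      apply h2
      apply Submodule.mem_sup_left
      intro κ hκ
      ext y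
      rw [act_symm hq]
      exact hw _ ⟨κ, hκ.1, hκ.2, ⟨y, rfl⟩⟩
    have h4 : θ ∈ Submodule.span (ZMod 2) (clX q μ₀) := by
      apply mem_span_of_vanish
      intro w hw
      apply h2
      apply Submodule.mem_sup_right
      intro κ hκ
      ext y
      rw [act_symm hq]
      exact hw _ ⟨κ, hκ.1, hκ.2, ⟨y, rfl⟩⟩
    rw [disj_XY hq hx hμ₀ h4 h3]; rfl
  have hB1 : ∀ v ∈ annV q P₁, ∀ w, q v w ∈ annB P₁ := by
    intro v hv w κ hκ
    exact LinearMap.congr_fun (hv κ hκ) w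
  have hB2 : ∀ v ∈ annV q P₂, ∀ w, q v w ∈ annB P₂ := by
    intro v hv w κ hκ
    exact LinearMap.congr_fun (hv κ hκ) w
  refine ⟨annV q P₁, annV q P₂, annB P₁, annB P₂, ⟨?_, ?_⟩, ⟨?_, ?_⟩, hB1, hB2, ?_, ?_⟩
  · rw [Submodule.disjoint_def]; exact hzero
  · rw [codisjoint_iff, eq_top_iff]
    intro v _; exact hsup v
  · rw [Submodule.disjoint_def]
    intro β h1 h2
    apply all_zero hq hx
    intro κ hκ
    by_cases h3 : Rel q κ μ₀
    · exact h2 κ ⟨hκ, h3⟩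
    · exact h1 κ ⟨hκ, h3⟩
  · rw [codisjoint_iff, eq_top_iff]
    intro β _
    obtain ⟨v, rfl⟩ := hx β
    obtain ⟨v₁, h1, v₂, h2, rfl⟩ := Submodule.mem_sup.1 (hsup v)
    rw [map_add]
    apply Submodule.add_mem_sup
    · rw [hq.symm]; exact hB1 v₁ h1 x
    · rw [hq.symm]; exact hB2 v₂ h2 x
  · intro h
    have h1 : x ∈ annV q P₁ := by rw [h]; trivial
    exact hν₀.1 (hx.act_eq_zero (h1 ν₀ ⟨hν₀, hr⟩))
  · intro h
    have h1 : x ∈ annV q P₂ := by rw [h]; trivial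
    exact hμ₀.1 (hx.act_eq_zero (h1 μ₀ ⟨hμ₀, rel_refl hx hμ₀.1⟩))

/-- extension data -/
def ExtData (q : V →ₗ[ZMod 2] V →ₗ[ZMod 2] B) (e : V) : Prop :=
  ∃ (D : Submodule (ZMod 2) V) (x : V), x ∉ D ∧ (∀ v, v ∈ D ∨ v + x ∈ D) ∧
    (∀ d ∈ D, ∀ d' ∈ D, q d d' = 0) ∧ e ∈ D ∧ (∀ d ∈ D, q x d = 0 → d = 0) ∧
    (∀ β, ∃ d ∈ D, q x d = β)

theorem ext_of_rel (hq : IsLinked q e) {x : V} (hx : Full q x)
    (hnd : ∀ a, (∀ b, q a b = 0) → a = 0)
    (hall : ∀ μ ν : B →ₗ[ZMod 2] ZMod 2, Atomic q μ → Atomic q ν → Rel q μ ν)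
    {μ ν : B →ₗ[ZMod 2] ZMod 2} (hμ0 : μ ≠ 0) (hν0 : ν ≠ 0) (hne : μ ≠ ν) : ExtData q e := by
  have hat : ∀ lam : B →ₗ[ZMod 2] ZMod 2, lam ≠ 0 → Atomic q lam := by
    intro lam h0
    obtain ⟨A, hA, hs⟩ := exists_nf hq hx lam
    rcases A.eq_empty_or_nonempty with h1 | ⟨κ, hκ⟩
    · rw [h1, Finset.sum_empty] at hs; exact absurd hs.symm h0
    · have h2 : A = {κ} := by
        apply Finset.eq_singleton_iff_unique_mem.2 ⟨hκ, ?_⟩
        intro κ' hκ'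
        by_contra h3
        exact hA.2 κ' hκ' κ hκ h3 (hall κ' κ (hA.1 κ' hκ') (hA.1 κ hκ))
      rw [h2, Finset.sum_singleton] at hs
      rw [← hs]; exact hA.1 κ hκ
  have hμ := hat μ hμ0
  have hν := hat ν hν0
  obtain ⟨φ, h0, h1, h2⟩ := hall μ ν hμ hν
  have hφall : ∀ κ : B →ₗ[ZMod 2] ZMod 2, κ ≠ 0 → φ ∈ R q κ := by
    intro κ hκ
    by_cases e1 : κ = μ
    · rw [e1]; exact h1
    · obtain ⟨φ', a0, a1, a2⟩ := hall μ κ hμ (hat κ hκ)
      have := phi_center hq hμ hν (hat κ hκ) hne (Ne.symm e1) h0 h1 h2 a0 a1 a2 hx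
      rw [this]; exact a2
  have hφx : φ x = 1 := tri_one hq hμ (not_le hμ hν hne) h0 h1 h2 hx
  have hD : ∀ d, φ d = 0 → ∀ κ : B →ₗ[ZMod 2] ZMod 2, act q κ d = 0 ∨ act q κ d = φ := by
    intro d hd κ
    by_cases hκ : κ = 0
    · left; rw [hκ, act_zero]; rfl
    · by_cases h3 : κ = μ
      · rw [h3]; exact phi_zero_act hq hμ (not_le hμ hν hne) h0 h1 h2 hx hd
      · exact phi_zero_act hq (hat κ hκ) (not_le (hat κ hκ) hμ h3) h0 (hφall κ hκ) h1 hx hd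
  have hDD : ∀ d, φ d = 0 → ∀ d', φ d' = 0 → q d d' = 0 := by
    intro d hd d' hd'
    by_contra hc
    have h1 : q d d' ∉ (⊥ : Submodule (ZMod 2) B) := by simpa using hc
    obtain ⟨lam, h2, _⟩ := exists_functional h1
    apply h2
    rcases hD d hd lam with h | h
    · exact LinearMap.congr_fun h d'
    · have := LinearMap.congr_fun h d'
      rw [hd'] at this; exact this
  have hφe : φ e = 0 := by
    obtain ⟨n, hn, hn2⟩ := tri_ex hq hμ (not_le hμ hν hne) h0 h1 h2 hx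
    have e1 : φ n = 0 := R_vanish hq h2 hn
    have e2 : μ (q n n) = μ (q n e) := by rw [hq.diag]
    have e3 := LinearMap.congr_fun hn2 n
    have e4 := LinearMap.congr_fun hn2 e
    rw [act_apply] at e3 e4
    rw [← e4, ← e2, e3, e1]
  refine ⟨LinearMap.ker φ, x, ?_, ?_, ?_, ?_, ?_, ?_⟩
  · rw [LinearMap.mem_ker, hφx]; decide
  · intro v
    rcases zm (φ v) with h | h
    · left; exact h
    · right; rw [LinearMap.mem_ker, map_add, h, hφx]; decide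
  · intro d hd d' hd'
    exact hDD d hd d' hd'
  · exact hφe
  · intro d hd hxd
    apply hnd
    intro v
    rcases zm (φ v) with h | h
    · exact hDD d hd v h
    · have h3 : φ (v + x) = 0 := by rw [map_add, h, hφx]; decide
      have h4 := hDD d hd _ h3
      rw [map_add, hq.symm d x, hxd, add_zero] at h4
      exact h4
  · intro β
    obtain ⟨v, rfl⟩ := hx β
    rcases zm (φ v) with h | h
    · exact ⟨v, h, rfl⟩
    · refine ⟨v + x + e, ?_, ?_⟩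
      · rw [LinearMap.mem_ker, map_add, map_add, h, hφx, hφe]; decide
      · rw [map_add, map_add, hq.diag x, add_assoc, ZModModule.add_self, add_zero]

end

end CommonSlot
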