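import Pool.Agent.Lib_MP_d26ff6_al.Trans2

namespace QS

open CommonSlot

section
variable {V B : Type} [AddCommGroup V] [Module (ZMod 2) V] [AddCommGroup B] [Module (ZMod 2) B]

theorem mem_span_pair {M : Type} [AddCommGroup M] [Module (ZMod 2) M] {a b : M}
    (h : b ∈ Submodule.span (ZMod 2) {a}) : b = 0 ∨ b = a := by
  obtain ⟨c, rfl⟩ := Submodule.mem_span_singleton.1 h
  rcases zm c with rfl | rfl
  · left; rw [zero_smul]
  · right; rw [one_smul]

theorem decomp_rad {q : V →ₗ[ZMod 2] V →ₗ[ZMod 2] B} {a : V} (ha : a ≠ 0)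
    (hr : ∀ b, q a b = 0) (ht : Submodule.span (ZMod 2) {a} ≠ ⊤) : Decomp q := by
  obtain ⟨W, hW⟩ := Submodule.exists_isCompl (Submodule.span (ZMod 2) {a})
  refine ⟨Submodule.span (ZMod 2) {a}, W, ⊥, ⊤, hW, isCompl_bot_top, ?_, ?_, ht, ?_⟩
  · intro v hv w
    rcases mem_span_pair hv with rfl | rfl
    · simp
    · rw [hr]; exact Submodule.zero_mem _
  · intro v _ w; trivial
  · rintro rfl
    have h1 : a ∈ Submodule.span (ZMod 2) {a} ⊓ (⊤ : Submodule (ZMod 2) V) :=
      ⟨Submodule.mem_span_singleton_self a, trivial⟩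
    rw [hW.inf_eq_bot] at h1
    exact ha ((Submodule.mem_bot _).1 h1)

theorem B_two (h : ∀ μ ν : B →ₗ[ZMod 2] ZMod 2, μ ≠ 0 → ν ≠ 0 → μ = ν) {β β' : B}
    (h1 : β ≠ 0) (h2 : β' ≠ 0) : β = β' := by
  by_contra hne
  have h3 : β ∉ Submodule.span (ZMod 2) {β'} := by
    intro hmem
    rcases mem_span_pair hmem with h | h
    · exact h1 h
    · exact hne h
  obtain ⟨f, hf, hf2⟩ := exists_functional h3
  have h4 : β' ∉ (⊥ : Submodule (ZMod 2) B) := by simpa using h2
  obtain ⟨g, hg, _⟩ := exists_functional h4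
  have h5 : f = g := h f g (by rintro rfl; exact hf rfl) (by rintro rfl; exact hg rfl)
  apply hg
  rw [← h5]
  exact hf2 _ (Submodule.mem_span_singleton_self β')

theorem ext_of_two [Finite V] {q : V →ₗ[ZMod 2] V →ₗ[ZMod 2] B} {e : V} (hq : IsLinked q e)
    (hnd : ∀ a, (∀ b, q a b = 0) → a = 0) (hB : ∀ β β' : B, β ≠ 0 → β' ≠ 0 → β = β')
    (hf : Module.finrank (ZMod 2) V = 2) : ExtData q e := by
  have hlt : ∀ d : V, d ≠ 0 → ∃ x, x ∉ Submodule.span (ZMod 2) {d} := by
    intro d hd
    by_contra hc
    push Not at hc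
    have h1 : Submodule.span (ZMod 2) {d} = ⊤ := eq_top_iff.2 (fun v _ => hc v)
    have h2 := finrank_span_singleton (K := ZMod 2) hd
    rw [h1, finrank_top, hf] at h2
    omega
  have hsup : ∀ d x : V, d ≠ 0 → x ∉ Submodule.span (ZMod 2) {d} →
      ∀ v, v ∈ Submodule.span (ZMod 2) {d} ∨ v + x ∈ Submodule.span (ZMod 2) {d} := by
    intro d x hd hx v
    have h1 : Submodule.span (ZMod 2) {d} < Submodule.span (ZMod 2) {d} ⊔
        Submodule.span (ZMod 2) {x} := by
      apply lt_of_le_of_ne le_sup_left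
      intro h
      apply hx
      rw [h]
      exact Submodule.mem_sup_right (Submodule.mem_span_singleton_self x)
    have h2 := Submodule.finrank_lt_finrank_of_lt h1
    have h2' := finrank_span_singleton (K := ZMod 2) hd
    have h3 := Submodule.finrank_le (Submodule.span (ZMod 2) {d} ⊔ Submodule.span (ZMod 2) {x})
    have h4 : Submodule.span (ZMod 2) {d} ⊔ Submodule.span (ZMod 2) {x} = ⊤ := by
      apply Submodule.eq_top_of_finrank_eq
      omega
    have h5 : v ∈ Submodule.span (ZMod 2) {d} ⊔ Submodule.span (ZMod 2) {x} := by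
      rw [h4]; trivial
    obtain ⟨a, ha, b, hb, rfl⟩ := Submodule.mem_sup.1 h5
    rcases mem_span_pair hb with rfl | rfl
    · left; rwa [add_zero]
    · right; rwa [add_assoc, ZModModule.add_self, add_zero]
  obtain ⟨d, hd0, hdd, hed⟩ : ∃ d : V, d ≠ 0 ∧ q d d = 0 ∧ (e = 0 ∨ e = d) := by
    by_cases he : e = 0
    · obtain ⟨v, hv⟩ : ∃ v : V, v ≠ 0 := by
        by_contra hc
        push Not at hc
        have : Module.finrank (ZMod 2) V = 0 := by
          rw [Module.finrank_eq_zero_iff_of_free]
          exact ⟨fun a b => by rw [hc a, hc b]⟩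
        omega
      exact ⟨v, hv, by rw [hq.diag, he, map_zero], Or.inl he⟩
    · refine ⟨e, he, ?_, Or.inr rfl⟩
      by_contra hee
      obtain ⟨w, hw⟩ := hlt e he
      have hw0 : w ≠ 0 := by rintro rfl; exact hw (Submodule.zero_mem _)
      have hwe : w ≠ e := by rintro rfl; exact hw (Submodule.mem_span_singleton_self _)
      obtain ⟨w', h1, h2, h3⟩ : ∃ w', w' ≠ 0 ∧ w' ∉ Submodule.span (ZMod 2) {e} ∧
          q w' e = 0 := by
        by_cases h : q w e = 0
        · exact ⟨w, hw0, hw, h⟩
        · refine ⟨w + e, fun h' => hwe (eq_of_add_eq_zero' h'), ?_, ?_⟩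
          · intro h'
            apply hw
            have := Submodule.add_mem _ h' (Submodule.mem_span_singleton_self e)
            rwa [add_assoc, ZModModule.add_self, add_zero] at this
          · rw [map_add, LinearMap.add_apply, hB _ _ h hee, ZModModule.add_self]
      apply h1
      apply hnd
      intro v
      rcases hsup e w' he h2 v with h | h
      · rcases mem_span_pair h with rfl | rfl
        · rw [map_zero]
        · exact h3
      · have h4 : v = w' + (v + w') := by rw [add_comm v, add_add_self]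
        rw [h4, map_add, hq.diag, h3, zero_add]
        rcases mem_span_pair h with h | h
        · rw [h, map_zero]
        · rw [h, h3]
  obtain ⟨x, hx⟩ := hlt d hd0
  have hxd : q x d ≠ 0 := by
    intro h
    apply hd0
    apply hnd
    intro v
    rcases hsup d x hd0 hx v with h' | h'
    · rcases mem_span_pair h' with rfl | rfl
      · rw [map_zero]
      · exact hdd
    · have h4 : v = x + (v + x) := by rw [add_comm v, add_add_self]
      rw [h4, map_add, hq.symm d x, h, zero_add]
      rcases mem_span_pair h' with h | h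
      · rw [h, map_zero]
      · rw [h, hdd]
  refine ⟨Submodule.span (ZMod 2) {d}, x, hx, hsup d x hd0 hx, ?_, ?_, ?_, ?_⟩
  · intro a ha b hb
    rcases mem_span_pair ha with rfl | rfl
    · simp
    · rcases mem_span_pair hb with rfl | rfl
      · simp
      · exact hdd
  · rcases hed with rfl | rfl
    · exact Submodule.zero_mem _
    · exact Submodule.mem_span_singleton_self _
  · intro a ha h
    rcases mem_span_pair ha with rfl | rfl
    · rfl
    · exact absurd h hxd
  · intro β
    by_cases hβ : β = 0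
    · exact ⟨0, Submodule.zero_mem _, by rw [map_zero, hβ]⟩
    · exact ⟨d, Submodule.mem_span_singleton_self _, hB _ _ hxd hβ⟩

theorem good_succ {n : ℕ} (hn : Good n) : Good (n + 1) := by
  intro V B _ _ _ _ _ q e hq hx hlt
  have hle : Nat.card V ≤ n := by omega
  by_cases hdec : Decomp q
  · exact slot_of_decomp hn hle hq hx hdec
  by_cases hext : ExtData q e
  · exact slot_of_ext hn hle hq hx hext
  by_cases h1 : Nat.card V = 1
  · exact SlotType.L0 _ h1
  by_cases hrad : ∃ a : V, a ≠ 0 ∧ ∀ b, q a b = 0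
  · obtain ⟨a, ha, hr⟩ := hrad
    have ht : Submodule.span (ZMod 2) {a} = ⊤ := by
      by_contra hc
      exact hdec (decomp_rad ha hr hc)
    have hall : ∀ v : V, v = 0 ∨ v = a := by
      intro v
      exact mem_span_pair (by rw [ht]; trivial)
    have hcard : Nat.card V = 2 := by
      have h2 := finrank_span_singleton (K := ZMod 2) ha
      rw [ht, finrank_top] at h2
      have h3 := Module.natCard_eq_pow_finrank (K := ZMod 2) (V := V)
      rw [h2, Nat.card_zmod] at h3
      simpa using h3
    have hq0 : ∀ v w : V, q v w = 0 := by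
      intro v w
      rcases hall v with rfl | rfl
      · simp
      · exact hr w
    by_cases he : e = 0
    · exact SlotType.L10 _ hcard (by subst he; rfl) (fun v w => hq0 _ _)
    · exact SlotType.L11 _ hcard (fun h => he (Multiplicative.ofAdd.injective h))
        (fun v w => hq0 _ _)
  have hnd : ∀ a : V, (∀ b, q a b = 0) → a = 0 := by
    intro a ha
    by_contra h0
    exact hrad ⟨a, h0, ha⟩
  obtain ⟨x, hxf⟩ := id hx
  have hall : ∀ μ ν : B →ₗ[ZMod 2] ZMod 2, Atomic q μ → Atomic q ν → Rel q μ ν := by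
    intro μ ν hμ hν
    by_contra hc
    exact hdec (decomp_of_not_rel hq hxf hnd hν hμ hc)
  have hBf : ∀ μ ν : B →ₗ[ZMod 2] ZMod 2, μ ≠ 0 → ν ≠ 0 → μ = ν := by
    intro μ ν hμ hν
    by_contra hc
    exact hext (ext_of_rel hq hxf hnd hall hμ hν hc)
  have hB : ∀ β β' : B, β ≠ 0 → β' ≠ 0 → β = β' := fun β β' h h' => B_two hBf h h'
  obtain ⟨v₀, hv₀⟩ : ∃ v : V, v ≠ 0 := by
    by_contra hc
    push Not at hc
    apply h1
    have : Subsingleton V := ⟨fun a b => by rw [hc a, hc b]⟩
    exact Nat.card_unique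
  obtain ⟨w₀, hw₀⟩ : ∃ w, q v₀ w ≠ 0 := by
    by_contra hc
    push Not at hc
    exact hv₀ (hnd v₀ hc)
  have hcardB : Nat.card B = 2 := by
    rw [Nat.card_eq_two_iff]
    refine ⟨0, q v₀ w₀, Ne.symm hw₀, ?_⟩
    ext β
    simp only [Set.mem_insert_iff, Set.mem_singleton_iff, Set.mem_univ, iff_true]
    by_cases h : β = 0
    · left; exact h
    · right; exact hB _ _ h hw₀
  have hpow := Module.natCard_eq_pow_finrank (K := ZMod 2) (V := V)
  rw [Nat.card_zmod] at hpow
  by_cases h3 : 3 ≤ Module.finrank (ZMod 2) V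
  · refine SlotType.loc _ ?_ ?_ ?_ hcardB
    · exact (inferInstance : Finite V)
    · change 8 ≤ Nat.card V
      rw [hpow]
      calc 8 = 2 ^ 3 := by norm_num
        _ ≤ _ := Nat.pow_le_pow_right (by norm_num) h3
    · intro a ha
      exact Multiplicative.toAdd.injective (hnd _ (fun b => ha (Multiplicative.ofAdd b)))
  · have h4 : Module.finrank (ZMod 2) V = 0 ∨ Module.finrank (ZMod 2) V = 1 ∨
        Module.finrank (ZMod 2) V = 2 := by omega
    rcases h4 with h4 | h4 | h4
    · rw [h4] at hpow
      exact absurd (by simpa using hpow) h1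
    · have hcard : Nat.card V = 2 := by rw [hpow, h4]; norm_num
      have hsp : Submodule.span (ZMod 2) {v₀} = ⊤ := by
        apply Submodule.eq_top_of_finrank_eq
        rw [finrank_span_singleton hv₀, h4]
      have hv : ∀ v : V, v = 0 ∨ v = v₀ := by
        intro v
        exact mem_span_pair (by rw [hsp]; trivial)
      have h5 : q v₀ v₀ ≠ 0 := by
        rcases hv w₀ with h | h
        · rw [h, map_zero] at hw₀; exact absurd rfl hw₀
        · rwa [h] at hw₀
      have h6 : e ≠ 0 := by
        rintro rfl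
        rw [hq.diag, map_zero] at h5; exact h5 rfl
      have h7 : e = v₀ := (hv e).resolve_left h6
      refine SlotType.L1 _ hcard (fun h => h6 (Multiplicative.ofAdd.injective h)) ?_
      change q e e ≠ 0
      rw [h7]; exact h5
    · exact absurd (ext_of_two hq hnd hB h4) hext

theorem good_all (n : ℕ) : Good n := by
  induction n with
  | zero =>
    intro V B _ _ _ _ _ q e hq hx hlt
    exact absurd hlt (Nat.not_lt_zero _)
  | succ n ih => exact good_succ ih

end

end QS
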