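import Pool.Agent.Lib_MP_d26ff6_al.Defs
import Pool.Agent.Lib_MP_d26ff6_al.Lin4

namespace QS

open CommonSlot

section
variable {V B : Type} [AddCommGroup V] [Module (ZMod 2) V] [AddCommGroup B] [Module (ZMod 2) B]

/-- the quaternionic structure of a linked map with a common slot -/
def toQS (q : V →ₗ[ZMod 2] V →ₗ[ZMod 2] B) (e : V) (hq : IsLinked q e)
    (hx : ∃ x, Full q x) : QStruct where
  G := Multiplicative V
  Q := B
  neg := Multiplicative.ofAdd e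
  zero := 0
  q := fun a b => q (Multiplicative.toAdd a) (Multiplicative.toAdd b)
  exp_two := fun a => ZModModule.add_self (G := V) (Multiplicative.toAdd a)
  surj := by
    intro β
    obtain ⟨x, hx⟩ := hx
    obtain ⟨b, hb⟩ := hx β
    exact ⟨Multiplicative.ofAdd x, Multiplicative.ofAdd b, hb⟩
  qs1 := by
    intro a
    simp only [toAdd_mul, toAdd_ofAdd, map_add]
    rw [hq.diag, ZModModule.add_self]
  qs2 := fun a b => hq.symm _ _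
  qs3 := by
    intro a b c
    simp only [toAdd_mul, map_add]
    constructor
    · intro h; rw [h, ZModModule.add_self]
    · exact eq_of_add_eq_zero'
  qs4 := by
    intro a b c d h
    obtain ⟨x, h1, h2⟩ := hq.link _ _ _ _ h
    exact ⟨Multiplicative.ofAdd x, h1.symm, by rw [← h]; exact h2.symm⟩

end

/-- the conclusion for all structures of linear data -/
def Good (n : ℕ) : Prop :=
  ∀ (V B : Type) [AddCommGroup V] [Module (ZMod 2) V] [AddCommGroup B] [Module (ZMod 2) B]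
    [Finite V] (q : V →ₗ[ZMod 2] V →ₗ[ZMod 2] B) (e : V) (hq : IsLinked q e)
    (hx : ∃ x, Full q x), Nat.card V < n → SlotType (toQS q e hq hx)

section
variable {V B : Type} [AddCommGroup V] [Module (ZMod 2) V] [AddCommGroup B] [Module (ZMod 2) B]

/-- restriction of `q` to a factor -/
def resQ (q : V →ₗ[ZMod 2] V →ₗ[ZMod 2] B) (V₁ : Submodule (ZMod 2) V) (B₁ : Submodule (ZMod 2) B)
    (h : ∀ v ∈ V₁, ∀ w, q v w ∈ B₁) : V₁ →ₗ[ZMod 2] V₁ →ₗ[ZMod 2] B₁ :=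
  LinearMap.mk₂ (ZMod 2) (fun v w => ⟨q v w, h v v.2 w⟩)
    (fun a b c => Subtype.ext (by simp)) (fun a b c => Subtype.ext (by simp))
    (fun a b c => Subtype.ext (by simp)) (fun a b c => Subtype.ext (by simp))

@[simp] theorem resQ_coe (q : V →ₗ[ZMod 2] V →ₗ[ZMod 2] B) (V₁ : Submodule (ZMod 2) V)
    (B₁ : Submodule (ZMod 2) B) (h : ∀ v ∈ V₁, ∀ w, q v w ∈ B₁) (v w : V₁) :
    (resQ q V₁ B₁ h v w : B) = q v w := rfl

theorem cross_zero {q : V →ₗ[ZMod 2] V →ₗ[ZMod 2] B} {e : V} (hq : IsLinked q e)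
    {V₁ V₂ : Submodule (ZMod 2) V} {B₁ B₂ : Submodule (ZMod 2) B} (hB : Disjoint B₁ B₂)
    (h1 : ∀ v ∈ V₁, ∀ w, q v w ∈ B₁) (h2 : ∀ v ∈ V₂, ∀ w, q v w ∈ B₂) {v w : V}
    (hv : v ∈ V₁) (hw : w ∈ V₂) : q v w = 0 := by
  apply (Submodule.disjoint_def.1 hB) _ (h1 v hv w)
  rw [hq.symm]; exact h2 w hw v

theorem res_linked {q : V →ₗ[ZMod 2] V →ₗ[ZMod 2] B} {e : V} (hq : IsLinked q e)
    {V₁ V₂ : Submodule (ZMod 2) V} {B₁ B₂ : Submodule (ZMod 2) B} (hB : Disjoint B₁ B₂)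
    (h1 : ∀ v ∈ V₁, ∀ w, q v w ∈ B₁) (h2 : ∀ v ∈ V₂, ∀ w, q v w ∈ B₂)
    (htop : ∀ v, ∃ a ∈ V₁, ∃ b ∈ V₂, a + b = v)
    {e₁ e₂ : V} (he₁ : e₁ ∈ V₁) (he₂ : e₂ ∈ V₂) (he : e₁ + e₂ = e) :
    IsLinked (resQ q V₁ B₁ h1) ⟨e₁, he₁⟩ := by
  refine ⟨?_, ?_, ?_⟩
  · intro a b; exact Subtype.ext (hq.symm _ _)
  · intro a
    apply Subtype.ext
    rw [resQ_coe, resQ_coe, hq.diag, ← he, map_add, cross_zero hq hB h1 h2 a.2 he₂, add_zero]
  · intro a b c d h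
    have h' : q a b = q c d := congrArg Subtype.val h
    obtain ⟨x, hx1, hx2⟩ := hq.link _ _ _ _ h'
    obtain ⟨x₁, hx₁, x₂, hx₂, rfl⟩ := htop x
    rw [map_add, cross_zero hq hB h1 h2 a.2 hx₂, add_zero] at hx1
    rw [map_add, cross_zero hq hB h1 h2 c.2 hx₂, add_zero] at hx2
    exact ⟨⟨x₁, hx₁⟩, Subtype.ext hx1, Subtype.ext hx2⟩

theorem res_full {q : V →ₗ[ZMod 2] V →ₗ[ZMod 2] B} {e : V} (hq : IsLinked q e)
    {V₁ V₂ : Submodule (ZMod 2) V} {B₁ B₂ : Submodule (ZMod 2) B} (hB : Disjoint B₁ B₂)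
    (h1 : ∀ v ∈ V₁, ∀ w, q v w ∈ B₁) (h2 : ∀ v ∈ V₂, ∀ w, q v w ∈ B₂)
    (htop : ∀ v, ∃ a ∈ V₁, ∃ b ∈ V₂, a + b = v) (hx : ∃ x, Full q x) :
    ∃ x, Full (resQ q V₁ B₁ h1) x := by
  obtain ⟨x, hx⟩ := hx
  obtain ⟨x₁, hx₁, x₂, hx₂, rfl⟩ := htop x
  refine ⟨⟨x₁, hx₁⟩, ?_⟩
  rintro ⟨β, hβ⟩
  obtain ⟨v, hv⟩ := hx β
  obtain ⟨v₁, hv₁, v₂, hv₂, rfl⟩ := htop v
  refine ⟨⟨v₁, hv₁⟩, Subtype.ext ?_⟩
  rw [resQ_coe]
  have e1 : q x₁ v₂ = 0 := cross_zero hq hB h1 h2 hx₁ hv₂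
  have e2 : q x₂ v₁ = 0 := by rw [hq.symm]; exact cross_zero hq hB h1 h2 hv₁ hx₂
  have e3 : q x₁ v₁ + q x₂ v₂ = β := by
    rw [← hv]; simp [e1, e2]
  have e4 : q x₂ v₂ = q x₁ v₁ + β := by rw [← e3, add_add_self]
  have e5 : q x₂ v₂ = 0 := by
    apply (Submodule.disjoint_def.1 hB) _ _ (h2 _ hx₂ _)
    rw [e4]; exact Submodule.add_mem _ (h1 _ hx₁ _) hβ
  rw [e5, add_zero] at e3
  exact e3

theorem iso_prod {V₁ V₂ B₁ B₂ : Type} [AddCommGroup V₁] [Module (ZMod 2) V₁]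
    [AddCommGroup V₂] [Module (ZMod 2) V₂] [AddCommGroup B₁] [Module (ZMod 2) B₁]
    [AddCommGroup B₂] [Module (ZMod 2) B₂]
    {q : V →ₗ[ZMod 2] V →ₗ[ZMod 2] B} {e : V} (hq : IsLinked q e) (hx : ∃ x, Full q x)
    {q₁ : V₁ →ₗ[ZMod 2] V₁ →ₗ[ZMod 2] B₁} {e₁ : V₁} (hq₁ : IsLinked q₁ e₁) (hx₁ : ∃ x, Full q₁ x)
    {q₂ : V₂ →ₗ[ZMod 2] V₂ →ₗ[ZMod 2] B₂} {e₂ : V₂} (hq₂ : IsLinked q₂ e₂) (hx₂ : ∃ x, Full q₂ x)
    (ψ : (V₁ × V₂) ≃+ V) (he : ψ (e₁, e₂) = e)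
    (h : ∀ a b c d : V₁ × V₂, (q₁ a.1 b.1 = q₁ c.1 d.1 ∧ q₂ a.2 b.2 = q₂ c.2 d.2) ↔
      q (ψ a) (ψ b) = q (ψ c) (ψ d)) :
    Iso (prod (toQS q₁ e₁ hq₁ hx₁) (toQS q₂ e₂ hq₂ hx₂)) (toQS q e hq hx) := by
  let φ : (Multiplicative V₁ × Multiplicative V₂) ≃* Multiplicative V :=
    { toFun := fun p => Multiplicative.ofAdd
        (ψ (Multiplicative.toAdd p.1, Multiplicative.toAdd p.2))
      invFun := fun v => (Multiplicative.ofAdd (ψ.symm (Multiplicative.toAdd v)).1,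
        Multiplicative.ofAdd (ψ.symm (Multiplicative.toAdd v)).2)
      left_inv := by
        intro p
        simp
      right_inv := by
        intro v
        simp
      map_mul' := by
        intro p p'
        rw [← ofAdd_add, ← map_add]
        rfl }
  refine ⟨φ, congrArg Multiplicative.ofAdd he, ?_⟩
  intro a b c d
  exact (Prod.mk.injEq _ _ _ _).to_iff.trans
    (h (Multiplicative.toAdd a.1, Multiplicative.toAdd a.2)
      (Multiplicative.toAdd b.1, Multiplicative.toAdd b.2)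
      (Multiplicative.toAdd c.1, Multiplicative.toAdd c.2)
      (Multiplicative.toAdd d.1, Multiplicative.toAdd d.2))

theorem slot_of_decomp [Finite V] {n : ℕ} (hn : Good n) (hVn : Nat.card V ≤ n)
    {q : V →ₗ[ZMod 2] V →ₗ[ZMod 2] B} {e : V} (hq : IsLinked q e) (hx : ∃ x, Full q x)
    (h : Decomp q) : SlotType (toQS q e hq hx) := by
  obtain ⟨V₁, V₂, B₁, B₂, hV, hB, h1, h2, h3, h4⟩ := h
  have htop : ∀ v, ∃ a ∈ V₁, ∃ b ∈ V₂, a + b = v := by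
    intro v
    have : v ∈ V₁ ⊔ V₂ := by rw [hV.sup_eq_top]; trivial
    exact Submodule.mem_sup.1 this
  have htop' : ∀ v, ∃ a ∈ V₂, ∃ b ∈ V₁, a + b = v := by
    intro v
    obtain ⟨a, ha, b, hb, h⟩ := htop v
    exact ⟨b, hb, a, ha, by rw [add_comm, h]⟩
  obtain ⟨e₁, he₁, e₂, he₂, he⟩ := htop e
  have hl1 := res_linked hq hB.disjoint h1 h2 htop he₁ he₂ he
  have hl2 := res_linked hq hB.disjoint.symm h2 h1 htop' he₂ he₁ (by rw [add_comm, he])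
  have hf1 := res_full hq hB.disjoint h1 h2 htop hx
  have hf2 := res_full hq hB.disjoint.symm h2 h1 htop' hx
  have hcard : ∀ W : Submodule (ZMod 2) V, W ≠ ⊤ → Nat.card W < n := by
    intro W hW
    refine lt_of_lt_of_le ?_ hVn
    have hW' : (W : Set V) ≠ Set.univ := by
      intro h; apply hW
      exact SetLike.coe_injective (by rw [h]; rfl)
    have := Set.ncard_lt_card (s := (W : Set V)) hW'
    rwa [← Nat.card_coe_set_eq] at this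
  have s1 := hn V₁ B₁ _ _ hl1 hf1 (hcard V₁ h3)
  have s2 := hn V₂ B₂ _ _ hl2 hf2 (hcard V₂ h4)
  refine SlotType.iso _ _ ?_ (SlotType.prod _ _ s1 s2)
  let ψ : (V₁ × V₂) ≃ₗ[ZMod 2] V := Submodule.prodEquivOfIsCompl V₁ V₂ hV
  have hψ : ∀ p, ψ p = (p.1 : V) + p.2 := fun p => Submodule.coe_prodEquivOfIsCompl' V₁ V₂ hV p
  have key : ∀ a b : V₁ × V₂,
      q (ψ a) (ψ b) = q a.1 b.1 + q a.2 b.2 := by
    intro a b
    rw [hψ, hψ]
    simp only [map_add, LinearMap.add_apply]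
    rw [cross_zero hq hB.disjoint h1 h2 a.1.2 b.2.2,
      hq.symm (a.2 : V) (b.1 : V),
      cross_zero hq hB.disjoint h1 h2 b.1.2 a.2.2,
      add_zero, zero_add]
  refine iso_prod hq hx hl1 hf1 hl2 hf2 ψ.toAddEquiv ?_ ?_
  · change ψ (⟨e₁, he₁⟩, ⟨e₂, he₂⟩) = e
    rw [hψ, he]
  · intro a b c d
    change _ ↔ q (ψ a) (ψ b) = q (ψ c) (ψ d)
    rw [key, key, Subtype.ext_iff, Subtype.ext_iff]
    simp only [resQ_coe]
    constructor
    · rintro ⟨h5, h6⟩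
      rw [h5, h6]
    · intro h
      have h5 : q a.1 b.1 + q c.1 d.1 = q a.2 b.2 + q c.2 d.2 := by
        apply eq_of_add_eq_zero'
        calc (q a.1 b.1 + q c.1 d.1 + (q a.2 b.2 + q c.2 d.2) : B)
            = (q a.1 b.1 + q a.2 b.2) + (q c.1 d.1 + q c.2 d.2) := by abel
          _ = 0 := by rw [h, ZModModule.add_self]
      have h6 : q a.1 b.1 + q c.1 d.1 = (0 : B) := by
        apply (Submodule.disjoint_def.1 hB.disjoint)
        · exact Submodule.add_mem _ (h1 _ a.1.2 _) (h1 _ c.1.2 _)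
        · rw [h5]
          exact Submodule.add_mem _ (h2 _ a.2.2 _) (h2 _ c.2.2 _)
      rw [h6] at h5
      exact ⟨eq_of_add_eq_zero' h6, eq_of_add_eq_zero' h5.symm⟩

end

end QS
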