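import Pool.Agent.Lib_MP_d26ff6_al.Trans

namespace QS

open CommonSlot

section
variable {V B : Type} [AddCommGroup V] [Module (ZMod 2) V] [AddCommGroup B] [Module (ZMod 2) B]

theorem zero_linked (D : Type) [AddCommGroup D] [Module (ZMod 2) D] (e : D) :
    IsLinked (0 : D →ₗ[ZMod 2] D →ₗ[ZMod 2] PUnit.{1}) e :=
  ⟨fun _ _ => rfl, fun _ => rfl, fun _ _ _ _ _ => ⟨0, rfl, rfl⟩⟩

theorem zero_full (D : Type) [AddCommGroup D] [Module (ZMod 2) D] :
    ∃ x, Full (0 : D →ₗ[ZMod 2] D →ₗ[ZMod 2] PUnit.{1}) x :=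
  ⟨0, fun _ => ⟨0, rfl⟩⟩

/-- comparison of an extension of a totally degenerate structure with linear data -/
theorem iso_ext (T : QStruct) (hT : ∀ a b, T.q a b = T.zero)
    {q : V →ₗ[ZMod 2] V →ₗ[ZMod 2] B} {e : V} (hq : IsLinked q e) (hx : ∃ x, Full q x)
    (ι : T.G → V) (hι1 : ι 1 = 0) (hι : ∀ a b, ι (a * b) = ι a + ι b) (x : V)
    (φ : (T.G × Multiplicative (ZMod 2)) ≃* Multiplicative V)
    (hφ : ∀ a α, Multiplicative.toAdd (φ (a, α)) = ι a + Multiplicative.toAdd α • x)
    (he : ι T.neg = e)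
    (hDD : ∀ a b, q (ι a) (ι b) = 0) (hinj : ∀ a, q x (ι a) = 0 → a = 1) :
    Iso (ext T) (toQS q e hq hx) := by
  have key : ∀ u v : T.G × Multiplicative (ZMod 2),
      q (Multiplicative.toAdd (φ u)) (Multiplicative.toAdd (φ v)) =
        q x (ι (extMap T u v).2) := by
    rintro ⟨a, α⟩ ⟨b, β⟩
    rcases two_cases α with rfl | rfl <;> rcases two_cases β with rfl | rfl <;>
      rw [hφ, hφ]
    · rw [extMap_one_one T a b]
      simp only [toAdd_one, zero_smul, add_zero]
      rw [hDD, hι1, map_zero]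
    · rw [extMap_one_x T a b]
      simp only [toAdd_one, zero_smul, add_zero, toAdd_ofAdd, one_smul, map_add]
      rw [hDD, zero_add, hq.symm]
    · rw [extMap_x_one T a b]
      simp only [toAdd_one, zero_smul, add_zero, toAdd_ofAdd, one_smul, map_add,
        LinearMap.add_apply]
      rw [hDD, zero_add]
    · rw [extMap_x_x T a b]
      simp only [toAdd_ofAdd, one_smul, map_add, LinearMap.add_apply]
      rw [hDD, zero_add, hq.symm (ι a) x, hq.diag x, hι, hι, he, map_add, map_add]
      abel
  refine ⟨φ, ?_, ?_⟩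
  · change φ (T.neg, 1) = Multiplicative.ofAdd e
    apply Multiplicative.toAdd.injective
    rw [hφ, toAdd_one, zero_smul, add_zero, he]; rfl
  · intro u v w z
    have k1 := key u v
    have k2 := key w z
    change (⟨extMap T u v, _⟩ : {p : T.Q × T.G // ∃ u v, extMap T u v = p}) =
      ⟨extMap T w z, _⟩ ↔
      q (Multiplicative.toAdd (φ u)) (Multiplicative.toAdd (φ v)) =
      q (Multiplicative.toAdd (φ w)) (Multiplicative.toAdd (φ z))
    rw [k1, k2, Subtype.mk.injEq]
    constructor
    · intro h; rw [h]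
    · intro h
      have h0 : (extMap T u v).1 = (extMap T w z).1 := by
        change T.q _ _ = T.q _ _
        rw [hT, hT]
      apply Prod.ext h0
      have h1 : q x (ι ((extMap T u v).2 * (extMap T w z).2)) = 0 := by
        rw [hι, map_add, h, ZModModule.add_self]
      exact (eq_iff_mul T _ _).2 (hinj _ h1)

theorem slot_of_ext [Finite V] {n : ℕ} (hn : Good n) (hVn : Nat.card V ≤ n)
    {q : V →ₗ[ZMod 2] V →ₗ[ZMod 2] B} {e : V} (hq : IsLinked q e) (hx : ∃ x, Full q x)
    (h : ExtData q e) : SlotType (toQS q e hq hx) := by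
  obtain ⟨D, x, hxD, hD, hDD, he, hinj, hsurj⟩ := h
  have hcard : Nat.card D < n := by
    refine lt_of_lt_of_le ?_ hVn
    have hW' : (D : Set V) ≠ Set.univ := by
      intro h; apply hxD
      have : x ∈ (D : Set V) := by rw [h]; trivial
      exact this
    have := Set.ncard_lt_card (s := (D : Set V)) hW'
    rwa [← Nat.card_coe_set_eq] at this
  have s1 := hn D PUnit.{1} _ _ (zero_linked D ⟨e, he⟩) (zero_full D) hcard
  let g : (D × ZMod 2) →ₗ[ZMod 2] V :=
    D.subtype.coprod (LinearMap.toSpanSingleton (ZMod 2) V x)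
  have hg : ∀ d α, g (d, α) = (d : V) + α • x := by
    intro d α; simp [g]
  have hbij : Function.Bijective g := by
    constructor
    · rw [injective_iff_map_eq_zero]
      rintro ⟨d, α⟩ h
      rw [hg] at h
      rcases zm α with rfl | rfl
      · rw [zero_smul, add_zero] at h
        exact Prod.ext (Subtype.ext h) rfl
      · rw [one_smul] at h
        exact absurd (eq_of_add_eq_zero' h ▸ d.2) hxD
    · intro v
      rcases hD v with h | h
      · exact ⟨(⟨v, h⟩, 0), by rw [hg, zero_smul, add_zero]⟩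
      · refine ⟨(⟨v + x, h⟩, 1), ?_⟩
        rw [hg, one_smul]
        change v + x + x = v
        rw [add_assoc, ZModModule.add_self, add_zero]
  let G : (D × ZMod 2) ≃ₗ[ZMod 2] V := LinearEquiv.ofBijective g hbij
  let φ : (Multiplicative D × Multiplicative (ZMod 2)) ≃* Multiplicative V :=
    { toFun := fun p => Multiplicative.ofAdd
        (G (Multiplicative.toAdd p.1, Multiplicative.toAdd p.2))
      invFun := fun v => (Multiplicative.ofAdd (G.symm (Multiplicative.toAdd v)).1,
        Multiplicative.ofAdd (G.symm (Multiplicative.toAdd v)).2)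
      left_inv := by
        intro p
        simp
      right_inv := by
        intro v
        simp
      map_mul' := by
        intro p p'
        rw [← ofAdd_add, ← map_add]
        rfl }
  refine SlotType.iso _ _ (iso_ext (toQS (0 : D →ₗ[ZMod 2] D →ₗ[ZMod 2] PUnit.{1}) ⟨e, he⟩
    (zero_linked D ⟨e, he⟩) (zero_full D)) (fun _ _ => rfl) hq hx
    (fun a => ((Multiplicative.toAdd a : D) : V)) rfl (fun _ _ => rfl) x φ ?_ rfl ?_ ?_)
    (SlotType.ext _ (fun _ _ => rfl) s1)
  · intro d α
    exact hg _ _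
  · intro d d'
    exact hDD _ (Subtype.coe_prop _) _ (Subtype.coe_prop _)
  · intro d hd
    apply Multiplicative.toAdd.injective
    exact Subtype.ext (hinj _ (Subtype.coe_prop _) hd)

end

end QS
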